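import Pool.Agent.U38.LR.FC

/-!
# Virtual Artin groups of even type
-/

set_option autoImplicit false

namespace Pool.Agent.U38.LR

open Pool.Agent.Y110.FJ (ClosedE Amg)
open Pool.Agent.Y462.SS (Closed)

section evAct

variable {V : Type} {n : V → ℕ} {m : V → V → ℕ} {Γ : Type} [Group Γ] [MulAction Γ V]

/-- the effect of `γ` on an even group -/
def evActHom (hn : ∀ (γ : Γ) v, n (γ • v) = n v) (hm : ∀ (γ : Γ) u v, m (γ • u) (γ • v) = m u v)
    (γ : Γ) : Ev n m →* Ev n m :=
  evHom (fun v => PresentedGroup.of (γ • v)) (fun v => by rw [← hn γ v]; exact ev_pow _)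
    (fun u v huv => by rw [← hm γ u v]; exact ev_rel fun h => huv (smul_left_cancel γ h))

theorem evActHom_of (hn : ∀ (γ : Γ) v, n (γ • v) = n v)
    (hm : ∀ (γ : Γ) u v, m (γ • u) (γ • v) = m u v) (γ : Γ) (v : V) :
    evActHom hn hm γ (PresentedGroup.of v) = PresentedGroup.of (γ • v) :=
  evHom_of _ _ _ v

/-- the action on an even group -/
def evAct (hn : ∀ (γ : Γ) v, n (γ • v) = n v) (hm : ∀ (γ : Γ) u v, m (γ • u) (γ • v) = m u v) :
    Γ →* MulAut (Ev n m) where
  toFun γ :=
    { toFun := evActHom hn hm γ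
      invFun := evActHom hn hm γ⁻¹
      left_inv := by
        intro y
        have h1 : (evActHom hn hm γ⁻¹).comp (evActHom hn hm γ) = MonoidHom.id _ := by
          refine PresentedGroup.ext fun x => ?_
          rw [MonoidHom.comp_apply, evActHom_of, evActHom_of, inv_smul_smul]
          rfl
        exact DFunLike.congr_fun h1 y
      right_inv := by
        intro y
        have h1 : (evActHom hn hm γ).comp (evActHom hn hm γ⁻¹) = MonoidHom.id _ := by
          refine PresentedGroup.ext fun x => ?_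
          rw [MonoidHom.comp_apply, evActHom_of, evActHom_of, smul_inv_smul]
          rfl
        exact DFunLike.congr_fun h1 y
      map_mul' := map_mul _ }
  map_one' := by
    ext y
    have h1 : evActHom hn hm (1 : Γ) = MonoidHom.id _ := by
      refine PresentedGroup.ext fun x => ?_
      rw [evActHom_of, one_smul]
      rfl
    exact DFunLike.congr_fun h1 y
  map_mul' γ δ := by
    ext y
    have h1 : evActHom hn hm (γ * δ) = (evActHom hn hm γ).comp (evActHom hn hm δ) := by
      refine PresentedGroup.ext fun x => ?_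
      rw [MonoidHom.comp_apply, evActHom_of, evActHom_of, evActHom_of, mul_smul]
    exact DFunLike.congr_fun h1 y

theorem evAct_of (hn : ∀ (γ : Γ) v, n (γ • v) = n v)
    (hm : ∀ (γ : Γ) u v, m (γ • u) (γ • v) = m u v) (γ : Γ) (v : V) :
    evAct hn hm γ (PresentedGroup.of v) = PresentedGroup.of (γ • v) :=
  evActHom_of hn hm γ v

end evAct

variable {S : Type}

section va

variable {k : S → S → ℕ}

/-- the generators `σ_s` -/
def sg (s : S) : VA k := PresentedGroup.of (s, true)

/-- the generators `τ_s` -/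
def ta (s : S) : VA k := PresentedGroup.of (s, false)

theorem ta_sq (s : S) : (ta s : VA k) ^ 2 = 1 := by
  have h1 : PresentedGroup.mk (vaRels k) (FreeGroup.of (s, false) ^ 2) = 1 :=
    PresentedGroup.one_of_mem (Or.inl (Or.inl ⟨s, rfl⟩))
  rw [map_pow] at h1
  exact h1

theorem va_rel (b : Bool) {s t : S} (h : s ≠ t) :
    ((PresentedGroup.of (s, b) : VA k) * PresentedGroup.of (t, b)) ^ k s t =
      (PresentedGroup.of (t, b) * PresentedGroup.of (s, b)) ^ k s t := by
  have h1 : PresentedGroup.mk (vaRels k) ((FreeGroup.of (s, b) * FreeGroup.of (t, b)) ^ k s t *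
    ((FreeGroup.of (t, b) * FreeGroup.of (s, b)) ^ k s t)⁻¹) = 1 :=
    PresentedGroup.one_of_mem (Or.inl (Or.inr ⟨s, t, b, h, rfl⟩))
  rw [map_mul, map_inv, mul_inv_eq_one, map_pow, map_pow, map_mul, map_mul] at h1
  exact h1

theorem va_comm {s t : S} (h : s ≠ t) (hk : k s t ≠ 0) :
    (sg s : VA k) * ((ta t * ta s) ^ (k s t - 1) * ta t) =
      ((ta t * ta s) ^ (k s t - 1) * ta t) * sg s := by
  have h1 : PresentedGroup.mk (vaRels k) (FreeGroup.of (s, true) *
    ((FreeGroup.of (t, false) * FreeGroup.of (s, false)) ^ (k s t - 1) * FreeGroup.of (t, false)) *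
    (FreeGroup.of (s, true))⁻¹ *
    ((FreeGroup.of (t, false) * FreeGroup.of (s, false)) ^ (k s t - 1) *
      FreeGroup.of (t, false))⁻¹) = 1 :=
    PresentedGroup.one_of_mem (Or.inr ⟨s, t, h, hk, rfl⟩)
  rw [map_mul, map_inv, mul_inv_eq_one, map_mul, map_inv, mul_inv_eq_iff_eq_mul, map_mul, map_mul,
    map_pow, map_mul] at h1
  exact h1

/-- homomorphisms from the virtual Artin group -/
def vaHom {H : Type} [Group H] (f g : S → H) (h1 : ∀ s, g s ^ 2 = 1)
    (h2 : ∀ s t, s ≠ t → (f s * f t) ^ k s t = (f t * f s) ^ k s t)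
    (h3 : ∀ s t, s ≠ t → (g s * g t) ^ k s t = (g t * g s) ^ k s t)
    (h4 : ∀ s t, s ≠ t → k s t ≠ 0 → f s * ((g t * g s) ^ (k s t - 1) * g t) =
      ((g t * g s) ^ (k s t - 1) * g t) * f s) : VA k →* H :=
  PresentedGroup.toGroup (f := fun x => if x.2 then f x.1 else g x.1) (by
    rintro r ((⟨s, rfl⟩ | ⟨s, t, b, hst, rfl⟩) | ⟨s, t, hst, hk, rfl⟩)
    · rw [map_pow, FreeGroup.lift_apply_of]
      exact h1 s
    · rw [map_mul, map_inv, mul_inv_eq_one, map_pow, map_pow, map_mul, map_mul,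
        FreeGroup.lift_apply_of, FreeGroup.lift_apply_of]
      cases b
      · exact h3 s t hst
      · exact h2 s t hst
    · rw [map_mul, map_inv, mul_inv_eq_one, map_mul, map_inv, mul_inv_eq_iff_eq_mul, map_mul,
        map_mul, map_pow, map_mul, FreeGroup.lift_apply_of, FreeGroup.lift_apply_of,
        FreeGroup.lift_apply_of]
      exact h4 s t hst hk)

theorem vaHom_sg {H : Type} [Group H] (f g : S → H) (h1 : ∀ s, g s ^ 2 = 1)
    (h2 : ∀ s t, s ≠ t → (f s * f t) ^ k s t = (f t * f s) ^ k s t)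
    (h3 : ∀ s t, s ≠ t → (g s * g t) ^ k s t = (g t * g s) ^ k s t)
    (h4 : ∀ s t, s ≠ t → k s t ≠ 0 → f s * ((g t * g s) ^ (k s t - 1) * g t) =
      ((g t * g s) ^ (k s t - 1) * g t) * f s) (s : S) : vaHom f g h1 h2 h3 h4 (sg s) = f s :=
  PresentedGroup.toGroup.of _

theorem vaHom_ta {H : Type} [Group H] (f g : S → H) (h1 : ∀ s, g s ^ 2 = 1)
    (h2 : ∀ s t, s ≠ t → (f s * f t) ^ k s t = (f t * f s) ^ k s t)
    (h3 : ∀ s t, s ≠ t → (g s * g t) ^ k s t = (g t * g s) ^ k s t)
    (h4 : ∀ s t, s ≠ t → k s t ≠ 0 → f s * ((g t * g s) ^ (k s t - 1) * g t) =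
      ((g t * g s) ^ (k s t - 1) * g t) * f s) (s : S) : vaHom f g h1 h2 h3 h4 (ta s) = g s :=
  (PresentedGroup.toGroup.of _).trans (if_neg Bool.false_ne_true)

theorem va_ext {H : Type} [Group H] {f g : VA k →* H} (h1 : ∀ s, f (sg s) = g (sg s))
    (h2 : ∀ s, f (ta s) = g (ta s)) : f = g := by
  refine PresentedGroup.ext fun x => ?_
  obtain ⟨s, b⟩ := x
  cases b
  · exact h2 s
  · exact h1 s

/-- the word `w` -/
def wd (k : S → S → ℕ) (s t : S) : ECox k :=
  (PresentedGroup.of t * PresentedGroup.of s) ^ (k s t - 1) * PresentedGroup.of t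

/-- the subgroup which fixes the root of `s` -/
def Cs (k : S → S → ℕ) (s : S) : Subgroup (ECox k) :=
  Subgroup.closure {c | ∃ t, s ≠ t ∧ k s t ≠ 0 ∧ c = wd k s t}

/-- the roots -/
abbrev Rt (k : S → S → ℕ) : Type := Σ s : S, ECox k ⧸ Cs k s

open Classical in
/-- the labels -/
noncomputable def mh (k : S → S → ℕ) (u v : Rt k) : ℕ :=
  if u.1 ≠ v.1 ∧ ∃ w : ECox k, (w : ECox k ⧸ Cs k u.1) = u.2 ∧ (w : ECox k ⧸ Cs k v.1) = v.2
    then k u.1 v.1 else 0

theorem mh_of {u v : Rt k} (h : u.1 ≠ v.1) {w : ECox k} (h1 : (w : ECox k ⧸ Cs k u.1) = u.2)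
    (h2 : (w : ECox k ⧸ Cs k v.1) = v.2) : mh k u v = k u.1 v.1 :=
  if_pos ⟨h, w, h1, h2⟩

theorem mh_ne {u v : Rt k} (h : mh k u v ≠ 0) : mh k u v = k u.1 v.1 ∧ u.1 ≠ v.1 ∧
    ∃ w : ECox k, (w : ECox k ⧸ Cs k u.1) = u.2 ∧ (w : ECox k ⧸ Cs k v.1) = v.2 := by
  by_cases h1 : u.1 ≠ v.1 ∧
    ∃ w : ECox k, (w : ECox k ⧸ Cs k u.1) = u.2 ∧ (w : ECox k ⧸ Cs k v.1) = v.2
  · exact ⟨if_pos h1, h1⟩
  · exact absurd (if_neg h1) h

theorem mh_symm (hs : ∀ s t, k s t = k t s) (u v : Rt k) : mh k u v = mh k v u := by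
  have h1 : ∀ u v : Rt k, mh k u v ≠ 0 → mh k v u = mh k u v := by
    intro u v h
    obtain ⟨h1, h2, w, h3, h4⟩ := mh_ne h
    rw [h1, hs, mh_of h2.symm h4 h3]
  by_cases h : mh k u v = 0
  · by_contra h'
    have h2 : mh k v u ≠ 0 := fun h3 => h' (h.trans h3.symm)
    exact h' (h1 v u h2)
  · exact (h1 u v h).symm

theorem mh_smul (g : ECox k) (u v : Rt k) : mh k (g • u) (g • v) = mh k u v := by
  have h1 : ∀ (g : ECox k) (u v : Rt k), mh k u v ≠ 0 → mh k (g • u) (g • v) = mh k u v := by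
    intro g u v h
    obtain ⟨h1, h2, w, h3, h4⟩ := mh_ne h
    rw [h1]
    refine mh_of (u := g • u) (v := g • v) h2 (w := g * w) ?_ ?_
    · show ((g * w : ECox k) : ECox k ⧸ Cs k u.1) = g • u.2
      rw [← h3]
      rfl
    · show ((g * w : ECox k) : ECox k ⧸ Cs k v.1) = g • v.2
      rw [← h4]
      rfl
  by_cases h : mh k u v = 0
  · rw [h]
    by_contra h'
    have h2 := h1 g⁻¹ _ _ h'
    rw [inv_smul_smul, inv_smul_smul] at h2
    exact h' (h2.symm.trans h)
  · exact h1 g u v h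

/-- the kernel -/
abbrev KV (k : S → S → ℕ) : Type := Ev (fun _ : Rt k => 0) (mh k)

/-- the action of the Coxeter group on the kernel -/
noncomputable def ka (k : S → S → ℕ) : ECox k →* MulAut (KV k) :=
  evAct (fun _ _ => rfl) mh_smul

theorem ka_of (g : ECox k) (v : Rt k) :
    ka k g (PresentedGroup.of v) = PresentedGroup.of (g • v) :=
  evAct_of _ _ g v

/-- the base roots -/
def rt (k : S → S → ℕ) (s : S) : Rt k := ⟨s, ((1 : ECox k) : ECox k ⧸ Cs k s)⟩

theorem wd_fix {s t : S} (h : s ≠ t) (hk : k s t ≠ 0) : wd k s t • rt k s = rt k s := by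
  show (⟨s, wd k s t • ((1 : ECox k) : ECox k ⧸ Cs k s)⟩ : Rt k) = ⟨s, _⟩
  congr 1
  show ((wd k s t * 1 : ECox k) : ECox k ⧸ Cs k s) = ((1 : ECox k) : ECox k ⧸ Cs k s)
  rw [mul_one, QuotientGroup.eq, mul_one]
  exact inv_mem (Subgroup.subset_closure ⟨t, h, hk, rfl⟩)

/-- the map to the semidirect product -/
noncomputable def vaTo (k : S → S → ℕ) : VA k →* KV k ⋊[ka k] ECox k :=
  vaHom (fun s => SemidirectProduct.inl (PresentedGroup.of (rt k s)))
    (fun s => SemidirectProduct.inr (PresentedGroup.of s))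
    (fun s => by
      have h1 := ev_pow (n := fun _ => 2) (m := k) s
      rw [← map_pow]
      exact (congrArg SemidirectProduct.inr h1).trans (map_one _))
    (fun s t hst => by
      rw [← map_mul, ← map_mul, ← map_pow, ← map_pow]
      have h1 : mh k (rt k s) (rt k t) = k s t :=
        mh_of (u := rt k s) (v := rt k t) hst (w := 1) rfl rfl
      rw [← h1, ev_rel]
      intro h2
      exact hst (congrArg Sigma.fst h2))
    (fun s t hst => by
      rw [← map_mul, ← map_mul, ← map_pow, ← map_pow, ev_rel hst])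
    (fun s t hst hk => by
      rw [← map_mul, ← map_pow, ← map_mul]
      have h1 := Pool.Agent.Y961.FJ.conj_inr (ka k) (wd k s t) (PresentedGroup.of (rt k s))
      rw [ka_of, wd_fix hst hk, mul_inv_eq_iff_eq_mul] at h1
      exact h1.symm)

/-- the Coxeter group maps to the virtual Artin group -/
def io (k : S → S → ℕ) : ECox k →* VA k :=
  evHom ta ta_sq fun _ _ h => va_rel false h

theorem io_of (s : S) : io k (PresentedGroup.of s) = ta s := evHom_of _ _ _ s

theorem io_comm {s : S} {c : ECox k} (hc : c ∈ Cs k s) : io k c * sg s = sg s * io k c := by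
  have h1 : Cs k s ≤ (Subgroup.centralizer {(sg s : VA k)}).comap (io k) := by
    rw [Cs, Subgroup.closure_le]
    rintro _ ⟨t, hst, hk, rfl⟩
    rw [SetLike.mem_coe, Subgroup.mem_comap, Subgroup.mem_centralizer_iff]
    rintro _ rfl
    rw [wd, map_mul, map_pow, map_mul, io_of, io_of]
    exact va_comm hst hk
  exact (Subgroup.mem_centralizer_iff.1 (h1 hc) _ rfl).symm

/-- the images of the roots -/
def rtTo (v : Rt k) : VA k :=
  Quotient.liftOn' v.2 (fun w => io k w * sg v.1 * (io k w)⁻¹) (by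
    intro a b hab
    have h1 : a⁻¹ * b ∈ Cs k v.1 := QuotientGroup.leftRel_apply.1 hab
    have h2 := io_comm h1
    rw [map_mul, map_inv] at h2
    show io k a * sg v.1 * (io k a)⁻¹ = io k b * sg v.1 * (io k b)⁻¹
    have h3 : io k b = io k a * ((io k a)⁻¹ * io k b) := by group
    rw [h3, mul_assoc (io k a) _ (sg v.1), h2]
    group)

theorem rtTo_mk (s : S) (w : ECox k) :
    rtTo (⟨s, (w : ECox k ⧸ Cs k s)⟩ : Rt k) = io k w * sg s * (io k w)⁻¹ := rfl

/-- the kernel maps to the virtual Artin group -/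
noncomputable def kTo (k : S → S → ℕ) : KV k →* VA k :=
  evHom rtTo (fun _ => pow_zero _) (by
    rintro ⟨s, x⟩ ⟨t, y⟩ _
    by_cases h : mh k ⟨s, x⟩ ⟨t, y⟩ = 0
    · rw [h, pow_zero, pow_zero]
    · obtain ⟨h1, h2, w, h3, h4⟩ := mh_ne h
      have h3' : (w : ECox k ⧸ Cs k s) = x := h3
      have h4' : (w : ECox k ⧸ Cs k t) = y := h4
      rw [h1, ← h3', ← h4', rtTo_mk, rtTo_mk]
      have h5 : ∀ a b c : VA k, (a * b * a⁻¹) * (a * c * a⁻¹) = MulAut.conj a (b * c) := by
        intro a b c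
        rw [MulAut.conj_apply]
        group
      rw [h5, h5, ← map_pow, ← map_pow]
      congr 1
      exact va_rel true h2)

theorem kTo_of (v : Rt k) : kTo k (PresentedGroup.of v) = rtTo v := evHom_of _ _ _ v

/-- the inverse map -/
noncomputable def vaFrom (k : S → S → ℕ) : KV k ⋊[ka k] ECox k →* VA k :=
  SemidirectProduct.lift (kTo k) (io k) (by
    intro g
    refine PresentedGroup.ext fun v => ?_
    obtain ⟨s, x⟩ := v
    obtain ⟨w, rfl⟩ := QuotientGroup.mk_surjective x
    show kTo k (ka k g (PresentedGroup.of ⟨s, (w : ECox k ⧸ Cs k s)⟩)) =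
      io k g * kTo k (PresentedGroup.of ⟨s, (w : ECox k ⧸ Cs k s)⟩) * (io k g)⁻¹
    rw [ka_of, kTo_of, kTo_of]
    show rtTo (⟨s, ((g * w : ECox k) : ECox k ⧸ Cs k s)⟩ : Rt k) = _
    rw [rtTo_mk, rtTo_mk, map_mul]
    group)

theorem vaFrom_vaTo (y : VA k) : vaFrom k (vaTo k y) = y := by
  have h1 : (vaFrom k).comp (vaTo k) = MonoidHom.id _ := by
    refine va_ext (fun s => ?_) (fun s => ?_)
    · rw [MonoidHom.comp_apply, vaTo, vaHom_sg, vaFrom, SemidirectProduct.lift_inl, kTo_of]
      show io k 1 * sg s * (io k 1)⁻¹ = _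
      rw [map_one, one_mul, inv_one, mul_one]
      rfl
    · rw [MonoidHom.comp_apply, vaTo, vaHom_ta, vaFrom, SemidirectProduct.lift_inr, io_of]
      rfl
  exact DFunLike.congr_fun h1 y

variable {C : ∀ (G : Type) [Group G], Prop}

/-- a set of roots whose labels do not vanish -/
theorem roots_mem (hC : ClosedE C) (τ : Set (Rt k)) (hcl : ∀ u ∈ τ, ∀ v ∈ τ, u ≠ v → mh k u v ≠ 0)
    (h : C (EArtin k)) : C (Evr (fun _ : Rt k => 0) (mh k) τ) := by
  classical
  have hinj : ∀ u ∈ τ, ∀ v ∈ τ, u.1 = v.1 → u = v := by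
    intro u hu v hv huv
    by_contra hne
    exact (mh_ne (hcl u hu v hv hne)).2.1 huv
  let f : Evr (fun _ : Rt k => 0) (mh k) τ →* EArtin k :=
    evHom (fun v => PresentedGroup.of (v : Rt k).1) (fun _ => pow_zero _) (by
      intro u v huv
      have h1 : (u : Rt k) ≠ v := fun h => huv (Subtype.ext h)
      have h2 := mh_ne (hcl u u.2 v v.2 h1)
      rw [h2.1]
      exact ev_rel h2.2.1)
  let p : S → Evr (fun _ : Rt k => 0) (mh k) τ := fun s =>
    if h : ∃ v : τ, (v : Rt k).1 = s then PresentedGroup.of h.choose else 1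
  have hp : ∀ v : τ, p (v : Rt k).1 = PresentedGroup.of v := by
    intro v
    have h1 : ∃ w : τ, (w : Rt k).1 = (v : Rt k).1 := ⟨v, rfl⟩
    have h2 : p (v : Rt k).1 = PresentedGroup.of h1.choose := dif_pos h1
    have h3 : h1.choose = v := Subtype.ext (hinj _ h1.choose.2 _ v.2 h1.choose_spec)
    rw [h2, h3]
  let g : EArtin k →* Evr (fun _ : Rt k => 0) (mh k) τ :=
    evHom p (fun _ => pow_zero _) (by
      intro s t hst
      by_cases h1 : ∃ v : τ, (v : Rt k).1 = s
      · by_cases h2 : ∃ v : τ, (v : Rt k).1 = t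
        · obtain ⟨u, rfl⟩ := h1
          obtain ⟨v, rfl⟩ := h2
          rw [hp, hp]
          have h3 : u ≠ v := fun h => hst (by rw [h])
          have h4 : (u : Rt k) ≠ v := fun h => h3 (Subtype.ext h)
          have h5 := mh_ne (hcl u u.2 v v.2 h4)
          rw [← h5.1]
          exact ev_rel (n := fun v : τ => 0) (m := fun u v : τ => mh k u v) h3
        · have h3 : p t = 1 := dif_neg h2
          rw [h3, one_mul, mul_one]
      · have h3 : p s = 1 := dif_neg h1
        rw [h3, one_mul, mul_one])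
  refine hC.base.of_injective _ _ f (Function.LeftInverse.injective (g := g) fun y => ?_) h
  have h1 : g.comp f = MonoidHom.id _ := by
    refine PresentedGroup.ext fun v => ?_
    rw [MonoidHom.comp_apply]
    have h2 : f (PresentedGroup.of v) = PresentedGroup.of (v : Rt k).1 := evHom_of _ _ _ v
    have h3 : g (PresentedGroup.of (v : Rt k).1) = p (v : Rt k).1 := evHom_of _ _ _ _
    rw [h2, h3, hp]
    rfl
  exact DFunLike.congr_fun h1 y

/-- **virtual Artin groups of even type** -/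
theorem va_iff (hC : ClosedE C) (hs : ∀ s t, k s t = k t s) :
    C (VA k) ↔ C (EArtin k) ∧ C (ECox k) := by
  constructor
  · intro h
    constructor
    · let i : EArtin k →* VA k := evHom sg (fun _ => pow_zero _) fun _ _ h => va_rel true h
      let p : VA k →* EArtin k := vaHom (fun s => PresentedGroup.of s) (fun _ => 1)
        (fun _ => one_pow _) (fun _ _ h => ev_rel h) (fun _ _ _ => rfl)
        (fun s t _ _ => by rw [one_mul, one_pow, one_mul, mul_one, one_mul])
      have hpi : p.comp i = MonoidHom.id _ := by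
        refine PresentedGroup.ext fun s => ?_
        have h1 : i (PresentedGroup.of s) = sg s := evHom_of _ _ _ s
        rw [MonoidHom.comp_apply, h1]
        exact vaHom_sg _ _ _ _ _ _ s
      exact hC.base.of_injective _ _ i
        (Function.LeftInverse.injective (g := p) fun y => DFunLike.congr_fun hpi y) h
    · let p : VA k →* ECox k := vaHom (fun _ => 1) (fun s => PresentedGroup.of s)
        (fun _ => ev_pow _) (fun _ _ _ => rfl) (fun _ _ h => ev_rel h)
        (fun s t _ _ => by rw [one_mul, mul_one])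
      have hpi : p.comp (io k) = MonoidHom.id _ := by
        refine PresentedGroup.ext fun s => ?_
        rw [MonoidHom.comp_apply, io_of]
        exact vaHom_ta _ _ _ _ _ _ s
      exact hC.base.of_injective _ _ (io k)
        (Function.LeftInverse.injective (g := p) fun y => DFunLike.congr_fun hpi y) h
  · rintro ⟨h1, h2⟩
    refine hC.base.of_injective _ _ (vaTo k) (Function.LeftInverse.injective vaFrom_vaTo) ?_
    rw [even_iff hC (mh_symm hs) (fun _ _ => rfl) mh_smul (ka k) ka_of]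
    exact ⟨h2, fun τ _ hcl => roots_mem hC τ hcl h1⟩

/-- an even group is in the class if those of the finite complete sets of vertices are -/
theorem ev_mem {V : Type} {n : V → ℕ} {m : V → V → ℕ} (hC : ClosedE C) (hs : ∀ u v, m u v = m v u)
    (h : ∀ τ : Set V, τ.Finite → (∀ u ∈ τ, ∀ v ∈ τ, u ≠ v → m u v ≠ 0) → C (Grp (ER n m) τ)) :
    C (Ev n m) := by
  refine hC.base.of_injective _ _ (evTo n m) (Function.LeftInverse.injective evFrom_evTo) ?_
  exact all_mem' hC ER_delClosed fun τ hτ hcl =>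
    h τ hτ fun u hu v hv huv => ER_linked hs huv (hcl u hu v hv huv)

/-- **virtual Artin groups of even type FC** -/
theorem va_fc (hC : ClosedE C) (hs : ∀ s t, k s t = k t s)
    (hfc : ∀ s t r, s ≠ t → t ≠ r → s ≠ r → k s t ≠ 0 → k t r ≠ 0 → k s r ≠ 0 →
      k s t = 1 ∨ k t r = 1) : C (VA k) := by
  rw [va_iff hC hs]
  constructor
  · exact ev_mem hC hs fun τ hτ hcl => fc_clique hC hs hfc (fun _ _ _ _ => Or.inl rfl) _ τ hτ
      le_rfl hcl
  · exact ev_mem hC hs fun τ hτ hcl => fc_clique hC hs hfc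
      (fun _ _ _ _ => Or.inr (Or.inr ⟨rfl, rfl⟩)) _ τ hτ le_rfl hcl

end va

end Pool.Agent.U38.LR
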