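import Pool.Agent.U38.LR.Lift

/-!
# The action on the group of an invariant presentation
-/

set_option autoImplicit false

namespace Pool.Agent.U38.LR

variable {V I : Type} {R : Set (FreeGroup (V × I))}

section act

variable {Γ : Type} [Group Γ] [MulAction Γ V]

/-- the effect of `γ` on the group `⟨V × I | R⟩` -/
noncomputable def actHom (hR : Inv Γ R) (γ : Γ) : PresentedGroup R →* PresentedGroup R :=
  PresentedGroup.toGroup (f := fun x => (PresentedGroup.of (γ • x.1, x.2) : PresentedGroup R)) (by
    intro r hr
    have h1 : FreeGroup.lift (fun x : V × I => (PresentedGroup.of (γ • x.1, x.2) : PresentedGroup R))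
        = (PresentedGroup.mk R).comp (mp fun v => γ • v) := by
      ext x
      rw [FreeGroup.lift_apply_of, MonoidHom.comp_apply, mp_of]
      rfl
    rw [h1, MonoidHom.comp_apply]
    exact PresentedGroup.one_of_mem (hR γ r hr))

theorem actHom_of (hR : Inv Γ R) (γ : Γ) (x : V × I) :
    actHom hR γ (PresentedGroup.of x) = PresentedGroup.of (γ • x.1, x.2) :=
  PresentedGroup.toGroup.of _

/-- **the action of `Γ` on the group `⟨V × I | R⟩`** -/
noncomputable def act (hR : Inv Γ R) : Γ →* MulAut (PresentedGroup R) where
  toFun γ :=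
    { toFun := actHom hR γ
      invFun := actHom hR γ⁻¹
      left_inv := by
        intro y
        have h1 : (actHom hR γ⁻¹).comp (actHom hR γ) = MonoidHom.id _ := by
          refine PresentedGroup.ext fun x => ?_
          rw [MonoidHom.comp_apply, actHom_of, actHom_of, inv_smul_smul]
          rfl
        exact DFunLike.congr_fun h1 y
      right_inv := by
        intro y
        have h1 : (actHom hR γ).comp (actHom hR γ⁻¹) = MonoidHom.id _ := by
          refine PresentedGroup.ext fun x => ?_
          rw [MonoidHom.comp_apply, actHom_of, actHom_of, smul_inv_smul]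
          rfl
        exact DFunLike.congr_fun h1 y
      map_mul' := map_mul _ }
  map_one' := by
    ext y
    have h1 : actHom hR (1 : Γ) = MonoidHom.id _ := by
      refine PresentedGroup.ext fun x => ?_
      rw [actHom_of, one_smul]
      rfl
    exact DFunLike.congr_fun h1 y
  map_mul' γ δ := by
    ext y
    have h1 : actHom hR (γ * δ) = (actHom hR γ).comp (actHom hR δ) := by
      refine PresentedGroup.ext fun x => ?_
      rw [MonoidHom.comp_apply, actHom_of, actHom_of, actHom_of, mul_smul]
    exact DFunLike.congr_fun h1 y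

theorem act_of (hR : Inv Γ R) (γ : Γ) (x : V × I) :
    act hR γ (PresentedGroup.of x) = PresentedGroup.of (γ • x.1, x.2) :=
  actHom_of hR γ x

end act

/-- the embedding of the group of `S` in the whole group -/
noncomputable def emb' (hR : DelClosed R) (S : Set V) : Grp R S →* PresentedGroup R :=
  toG hR (f := fun x => by
    classical
    exact if x.1 ∈ S then (PresentedGroup.of x : PresentedGroup R) else 1)
    (fun x hx => if_neg hx) (by
    intro r hr hS
    rw [hom_ext (g := PresentedGroup.mk R) S (fun x hx => ?_) r hS, PresentedGroup.one_of_mem hr]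
    rw [FreeGroup.lift_apply_of]
    exact if_pos hx)

theorem emb'_of (hR : DelClosed R) {S : Set V} {x : V × I} (hx : x.1 ∈ S) :
    emb' hR S (PresentedGroup.of x) = PresentedGroup.of x := by
  rw [emb', toG_of]
  exact if_pos hx

/-- the retraction of the whole group -/
noncomputable def ret' (R : Set (FreeGroup (V × I))) (S : Set V) :
    PresentedGroup R →* Grp R S :=
  PresentedGroup.toGroup (f := fun x => (PresentedGroup.of x : Grp R S)) (by
    intro r hr
    have h1 : FreeGroup.lift (fun x => (PresentedGroup.of x : Grp R S)) = pj R S := by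
      ext x
      rw [FreeGroup.lift_apply_of, pj_of]
    rw [h1, pj_rel hr])

theorem ret'_of (S : Set V) (x : V × I) :
    ret' R S (PresentedGroup.of x) = PresentedGroup.of x :=
  PresentedGroup.toGroup.of _

theorem ret'_emb' (hR : DelClosed R) (S : Set V) (y : Grp R S) :
    ret' R S (emb' hR S y) = y := by
  have h1 : (ret' R S).comp (emb' hR S) = MonoidHom.id _ := by
    refine grp_ext fun x hx => ?_
    rw [MonoidHom.comp_apply, emb'_of hR hx, ret'_of]
    rfl
  exact DFunLike.congr_fun h1 y

theorem emb'_injective (hR : DelClosed R) (S : Set V) : Function.Injective (emb' hR S) :=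
  Function.LeftInverse.injective (ret'_emb' hR S)

theorem exists_fin_all (hR : DelClosed R) (y : PresentedGroup R) :
    ∃ (S : Set V), S.Finite ∧ y ∈ (emb' hR S).range := by
  have hmono : ∀ {S T : Set V}, S ⊆ T → (emb' hR S).range ≤ (emb' hR T).range := by
    intro S T h
    rintro _ ⟨z, rfl⟩
    refine ⟨emb hR h z, ?_⟩
    have h1 : (emb' hR T).comp (emb hR h) = emb' hR S := by
      refine grp_ext fun x hx => ?_
      rw [MonoidHom.comp_apply, emb_of hR h hx, emb'_of hR (h hx), emb'_of hR hx]
    exact DFunLike.congr_fun h1 z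
  have h1 : y ∈ Subgroup.closure (Set.range (PresentedGroup.of : V × I → PresentedGroup R)) := by
    rw [PresentedGroup.closure_range_of]
    exact Subgroup.mem_top y
  induction h1 using Subgroup.closure_induction with
  | mem y hy =>
    obtain ⟨x, rfl⟩ := hy
    exact ⟨{x.1}, Set.finite_singleton _, PresentedGroup.of x, emb'_of hR rfl⟩
  | one => exact ⟨∅, Set.finite_empty, one_mem _⟩
  | mul y z _ _ hy hz =>
    obtain ⟨S, hS, hy⟩ := hy
    obtain ⟨S', hS', hz⟩ := hz
    exact ⟨S ∪ S', hS.union hS', mul_mem (hmono Set.subset_union_left hy)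
      (hmono Set.subset_union_right hz)⟩
  | inv y _ hy =>
    obtain ⟨S, hS, hy⟩ := hy
    exact ⟨S, hS, inv_mem hy⟩

theorem range_mono' (hR : DelClosed R) {S T : Set V} (h : S ⊆ T) :
    (emb' hR S).range ≤ (emb' hR T).range := by
  rintro _ ⟨z, rfl⟩
  refine ⟨emb hR h z, ?_⟩
  have h1 : (emb' hR T).comp (emb hR h) = emb' hR S := by
    refine grp_ext fun x hx => ?_
    rw [MonoidHom.comp_apply, emb_of hR h hx, emb'_of hR (h hx), emb'_of hR hx]
  exact DFunLike.congr_fun h1 z

theorem exists_fin_all' (hR : DelClosed R) (E : Set (PresentedGroup R)) (hE : E.Finite) :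
    ∃ (S : Set V), S.Finite ∧ E ⊆ (emb' hR S).range := by
  induction E, hE using Set.Finite.induction_on with
  | empty => exact ⟨∅, Set.finite_empty, Set.empty_subset _⟩
  | insert _ _ ih =>
    rename_i y E _ _
    obtain ⟨S, hS, hE⟩ := ih
    obtain ⟨S', hS', hy⟩ := exists_fin_all hR y
    refine ⟨S ∪ S', hS.union hS', ?_⟩
    rw [Set.insert_subset_iff]
    exact ⟨range_mono' hR Set.subset_union_right hy,
      hE.trans (range_mono' hR Set.subset_union_left)⟩

end Pool.Agent.U38.LR
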