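import Pool.Agent.U38.LR.Defs

/-!
# Presentations which are closed under deletion: first properties
-/

set_option autoImplicit false

namespace Pool.Agent.U38.LR

variable {V I : Type} {R : Set (FreeGroup (V × I))}

theorem del_of_mem {S : Set V} {x : V × I} (h : x.1 ∈ S) : del S (FreeGroup.of x) = FreeGroup.of x := by
  simp [del, h]

theorem del_of_not_mem {S : Set V} {x : V × I} (h : x.1 ∉ S) : del S (FreeGroup.of x) = 1 := by
  simp [del, h]

theorem hom_ext {H : Type} [Group H] {f g : FreeGroup (V × I) →* H} (S : Set V)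
    (h : ∀ x : V × I, x.1 ∈ S → f (FreeGroup.of x) = g (FreeGroup.of x)) (w : FreeGroup (V × I))
    (hw : del S w = w) : f w = g w := by
  have h1 : f.comp (del S) = g.comp (del S) := by
    ext x
    rw [MonoidHom.comp_apply, MonoidHom.comp_apply]
    by_cases hx : x.1 ∈ S
    · rw [del_of_mem hx, h x hx]
    · rw [del_of_not_mem hx, map_one, map_one]
  have h2 := DFunLike.congr_fun h1 w
  rwa [MonoidHom.comp_apply, MonoidHom.comp_apply, hw] at h2

theorem del_del (S T : Set V) (w : FreeGroup (V × I)) : del S (del T w) = del (S ∩ T) w := by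
  have h1 : (del S).comp (del T) = (del (S ∩ T) : FreeGroup (V × I) →* _) := by
    ext x
    rw [MonoidHom.comp_apply]
    by_cases hT : x.1 ∈ T
    · rw [del_of_mem hT]
      by_cases hS : x.1 ∈ S
      · rw [del_of_mem hS, del_of_mem (Set.mem_inter hS hT)]
      · rw [del_of_not_mem hS, del_of_not_mem fun h => hS h.1]
    · rw [del_of_not_mem hT, map_one, del_of_not_mem fun h => hT h.2]
  exact DFunLike.congr_fun h1 w

theorem del_mono {S T : Set V} (h : S ⊆ T) {w : FreeGroup (V × I)} (hw : del S w = w) :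
    del T w = w := by
  rw [← hw, del_del, Set.inter_eq_right.2 h]

theorem del_kill {S : Set V} {H : Type} [Group H] (f : FreeGroup (V × I) →* H)
    (h : ∀ x : V × I, x.1 ∉ S → f (FreeGroup.of x) = 1) (w : FreeGroup (V × I)) :
    f (del S w) = f w := by
  have h1 : f.comp (del S) = f := by
    ext x
    rw [MonoidHom.comp_apply]
    by_cases hx : x.1 ∈ S
    · rw [del_of_mem hx]
    · rw [del_of_not_mem hx, map_one, h x hx]
  exact DFunLike.congr_fun h1 w

theorem key (hR : DelClosed R) (S : Set V) {H : Type} [Group H] (f : FreeGroup (V × I) →* H)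
    (h0 : ∀ x : V × I, x.1 ∉ S → f (FreeGroup.of x) = 1)
    (h1 : ∀ r ∈ R, del S r = r → f r = 1) : ∀ r ∈ R, f r = 1 := by
  intro r hr
  rw [← del_kill f h0 r]
  rcases hR r hr S with h | h
  · exact h1 _ h (by rw [del_del, Set.inter_self])
  · rw [h, map_one]

/-- the projection of the free group -/
abbrev pj (R : Set (FreeGroup (V × I))) (S : Set V) : FreeGroup (V × I) →* Grp R S :=
  PresentedGroup.mk (RS R S)

theorem pj_of (R : Set (FreeGroup (V × I))) (S : Set V) (x : V × I) :
    pj R S (FreeGroup.of x) = PresentedGroup.of x := rfl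

theorem pj_rel {S : Set V} {r : FreeGroup (V × I)} (h : r ∈ R) : pj R S r = 1 :=
  PresentedGroup.one_of_mem (Or.inl h)

theorem pj_kill {S : Set V} {x : V × I} (h : x.1 ∉ S) :
    (PresentedGroup.of x : Grp R S) = 1 :=
  PresentedGroup.one_of_mem (rels := RS R S) (x := FreeGroup.of x) (Or.inr ⟨x, h, rfl⟩)

/-- homomorphisms from the group of `S` -/
noncomputable def toG {S : Set V} (hR : DelClosed R) {H : Type} [Group H] (f : V × I → H)
    (h0 : ∀ x : V × I, x.1 ∉ S → f x = 1)
    (h1 : ∀ r ∈ R, del S r = r → FreeGroup.lift f r = 1) : Grp R S →* H :=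
  PresentedGroup.toGroup (f := f) (by
    rintro r (hr | ⟨x, hx, rfl⟩)
    · refine key hR S (FreeGroup.lift f) (fun x hx => ?_) h1 r hr
      rw [FreeGroup.lift_apply_of, h0 x hx]
    · rw [FreeGroup.lift_apply_of, h0 x hx])

theorem toG_of {S : Set V} (hR : DelClosed R) {H : Type} [Group H] (f : V × I → H)
    (h0 : ∀ x : V × I, x.1 ∉ S → f x = 1)
    (h1 : ∀ r ∈ R, del S r = r → FreeGroup.lift f r = 1) (x : V × I) :
    toG hR f h0 h1 (PresentedGroup.of x) = f x :=
  PresentedGroup.toGroup.of _

/-- homomorphisms which agree on the generators in `S` are equal -/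
theorem grp_ext {S : Set V} {H : Type} [Group H] {f g : Grp R S →* H}
    (h : ∀ x : V × I, x.1 ∈ S → f (PresentedGroup.of x) = g (PresentedGroup.of x)) : f = g := by
  refine PresentedGroup.ext fun x => ?_
  by_cases hx : x.1 ∈ S
  · exact h x hx
  · rw [pj_kill hx, map_one, map_one]

open Classical in
/-- the embedding of the group of `S` in that of `T` -/
noncomputable def emb (hR : DelClosed R) {S T : Set V} (_ : S ⊆ T) : Grp R S →* Grp R T :=
  toG hR (fun x => if x.1 ∈ S then PresentedGroup.of x else 1) (fun x hx => if_neg hx) (by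
    intro r hr hS
    rw [hom_ext (g := pj R T) S (fun x hx => ?_) r hS, pj_rel hr]
    rw [FreeGroup.lift_apply_of, if_pos hx, pj_of])

theorem emb_of (hR : DelClosed R) {S T : Set V} (h : S ⊆ T) {x : V × I} (hx : x.1 ∈ S) :
    emb hR h (PresentedGroup.of x) = PresentedGroup.of x := by
  rw [emb, toG_of, if_pos hx]

/-- the retraction -/
noncomputable def ret (R : Set (FreeGroup (V × I))) {S T : Set V} (h : S ⊆ T) :
    Grp R T →* Grp R S :=
  PresentedGroup.toGroup (f := fun x => (PresentedGroup.of x : Grp R S)) (by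
    rintro r (hr | ⟨x, hx, rfl⟩)
    · have h1 : FreeGroup.lift (fun x => (PresentedGroup.of x : Grp R S)) = pj R S := by
        ext x
        rw [FreeGroup.lift_apply_of, pj_of]
      rw [h1, pj_rel hr]
    · rw [FreeGroup.lift_apply_of]
      exact pj_kill fun h' => hx (h h'))

theorem ret_of {S T : Set V} (h : S ⊆ T) (x : V × I) :
    ret R h (PresentedGroup.of x) = PresentedGroup.of x :=
  PresentedGroup.toGroup.of _

theorem ret_emb (hR : DelClosed R) {S T : Set V} (h : S ⊆ T) (y : Grp R S) :
    ret R h (emb hR h y) = y := by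
  have h1 : (ret R h).comp (emb hR h) = MonoidHom.id _ := by
    refine grp_ext fun x hx => ?_
    rw [MonoidHom.comp_apply, emb_of hR h hx, ret_of]
    rfl
  exact DFunLike.congr_fun h1 y

theorem emb_injective (hR : DelClosed R) {S T : Set V} (h : S ⊆ T) :
    Function.Injective (emb hR h) :=
  Function.LeftInverse.injective (ret_emb hR h)

theorem emb_emb (hR : DelClosed R) {S T U : Set V} (h : S ⊆ T) (h' : T ⊆ U) (y : Grp R S) :
    emb hR h' (emb hR h y) = emb hR (h.trans h') y := by
  have h1 : (emb hR h').comp (emb hR h) = emb hR (h.trans h') := by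
    refine grp_ext fun x hx => ?_
    rw [MonoidHom.comp_apply, emb_of hR h hx, emb_of hR h' (h hx), emb_of hR _ hx]
  exact DFunLike.congr_fun h1 y

theorem range_mono (hR : DelClosed R) {S T U : Set V} (h : S ⊆ T) (h' : T ⊆ U) :
    (emb hR (h.trans h')).range ≤ (emb hR h').range := by
  rintro _ ⟨y, rfl⟩
  exact ⟨emb hR h y, emb_emb hR h h' y⟩

theorem of_mem_range (hR : DelClosed R) {S T : Set V} (h : S ⊆ T) {x : V × I} (hx : x.1 ∈ S) :
    (PresentedGroup.of x : Grp R T) ∈ (emb hR h).range :=
  ⟨PresentedGroup.of x, emb_of hR h hx⟩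

end Pool.Agent.U38.LR
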