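import Mathlib

/-!
# Presentations which are closed under the deletion of vertices

The generators are the pairs `(v, i)`, `v` in the set `V` of vertices.
-/

set_option autoImplicit false

namespace Pool.Agent.U38.LR

variable {V I : Type}

open Classical in
/-- the deletion of the letters `(v, i)` with `v` not in `S` -/
noncomputable def del (S : Set V) : FreeGroup (V × I) →* FreeGroup (V × I) :=
  FreeGroup.lift fun x => if x.1 ∈ S then FreeGroup.of x else 1

/-- the set `R` of relators is closed under the deletion of vertices -/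
def DelClosed (R : Set (FreeGroup (V × I))) : Prop :=
  ∀ r ∈ R, ∀ S : Set V, del S r ∈ R ∨ del S r = 1

/-- some relator involves both vertices `u` and `v` (the deletion of each of them changes the relator) -/
def Linked (R : Set (FreeGroup (V × I))) (u v : V) : Prop :=
  ∃ r ∈ R, del {u}ᶜ r ≠ r ∧ del {v}ᶜ r ≠ r

/-- any two different elements of `σ` are linked -/
def Clique (R : Set (FreeGroup (V × I))) (σ : Set V) : Prop :=
  ∀ u ∈ σ, ∀ v ∈ σ, u ≠ v → Linked R u v

/-- the relators of the group of `S`: those of `R`, and all letters outside `S` -/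
def RS (R : Set (FreeGroup (V × I))) (S : Set V) : Set (FreeGroup (V × I)) :=
  R ∪ {w | ∃ x : V × I, x.1 ∉ S ∧ w = FreeGroup.of x}

/-- the group of `S`: all generators outside `S` are killed in `⟨V × I | R⟩` -/
abbrev Grp (R : Set (FreeGroup (V × I))) (S : Set V) : Type := PresentedGroup (RS R S)

/-- the effect of a map of the vertices -/
def mp {W : Type} (f : V → W) : FreeGroup (V × I) →* FreeGroup (W × I) :=
  FreeGroup.map (Prod.map f id)

/-- `R` is invariant under the action of `Γ` on the vertices -/
def Inv (Γ : Type) [Group Γ] [MulAction Γ V] (R : Set (FreeGroup (V × I))) : Prop :=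
  ∀ (γ : Γ), ∀ r ∈ R, mp (fun v => γ • v) r ∈ R

/-! ### Even groups -/

/-- the relators `x_v ^ n v` and `(x_u x_v) ^ k (x_v x_u) ^ (-k)` with `k = m u v`, `u ≠ v` -/
def rels {V : Type} (n : V → ℕ) (m : V → V → ℕ) : Set (FreeGroup V) :=
  {r | ∃ v, r = FreeGroup.of v ^ n v} ∪
  {r | ∃ u v, u ≠ v ∧ r = (FreeGroup.of u * FreeGroup.of v) ^ m u v *
    ((FreeGroup.of v * FreeGroup.of u) ^ m u v)⁻¹}

/-- **the even group**: generators `x_v`, relations `x_v ^ n v = 1` and
`(x_u x_v) ^ k = (x_v x_u) ^ k` with `k = m u v`, `u ≠ v`.  (`n v = 0`: no relation for `v`;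
`m u v = 0`: no relation for `u` and `v`) -/
abbrev Ev {V : Type} (n : V → ℕ) (m : V → V → ℕ) : Type := PresentedGroup (rels n m)

/-- the even group with the generators `x_v`, `v ∈ T`, and the relations between them -/
abbrev Evr {V : Type} (n : V → ℕ) (m : V → V → ℕ) (T : Set V) : Type :=
  Ev (fun v : T => n v) (fun u v : T => m u v)

/-- the even Artin group with the labels `2 * k s t` (`k s t = 0`: no relation) -/
abbrev EArtin {S : Type} (k : S → S → ℕ) : Type := Ev (fun _ => 0) k

/-- the even Coxeter group with the labels `2 * k s t` (`k s t = 0`: no relation) -/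
abbrev ECox {S : Type} (k : S → S → ℕ) : Type := Ev (fun _ => 2) k

/-- the relators of the virtual Artin group: generators `(s, true) = σ_s` and `(s, false) = τ_s` -/
def vaRels {S : Type} (k : S → S → ℕ) : Set (FreeGroup (S × Bool)) :=
  {r | ∃ s, r = FreeGroup.of (s, false) ^ 2} ∪
  {r | ∃ s t b, s ≠ t ∧ r = (FreeGroup.of (s, b) * FreeGroup.of (t, b)) ^ k s t *
    ((FreeGroup.of (t, b) * FreeGroup.of (s, b)) ^ k s t)⁻¹} ∪
  {r | ∃ s t, s ≠ t ∧ k s t ≠ 0 ∧ r = FreeGroup.of (s, true) *
    ((FreeGroup.of (t, false) * FreeGroup.of (s, false)) ^ (k s t - 1) * FreeGroup.of (t, false)) *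
    (FreeGroup.of (s, true))⁻¹ *
    ((FreeGroup.of (t, false) * FreeGroup.of (s, false)) ^ (k s t - 1) *
      FreeGroup.of (t, false))⁻¹}

/-- **the virtual Artin group** of even type with the labels `2 * k s t`: generators `σ_s` and `τ_s`,
the relations of the even Artin group for the `σ_s`, those of the even Coxeter group for the `τ_s`, and
`σ_s` commutes with the alternating word `τ_t τ_s ⋯ τ_t` of length `2 * k s t - 1` -/
abbrev VA {S : Type} (k : S → S → ℕ) : Type := PresentedGroup (vaRels k)

/-- type FC: among three different elements with nonzero labels at most one label is not `1` -/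
def TypeFC {V : Type} (m : V → V → ℕ) : Prop :=
  ∀ u v w, u ≠ v → v ≠ w → u ≠ w → m u v ≠ 0 → m v w ≠ 0 → m u w ≠ 0 → m u v = 1 ∨ m v w = 1

end Pool.Agent.U38.LR
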