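import Pool.Agent.U38.LR.Final

/-!
# Even groups
-/

set_option autoImplicit false

namespace Pool.Agent.U38.LR

open Pool.Agent.Y110.FJ (ClosedE Amg)

section basic

variable {V : Type} {n : V → ℕ} {m : V → V → ℕ}

theorem ev_pow (v : V) : (PresentedGroup.of v : Ev n m) ^ n v = 1 := by
  have h1 : PresentedGroup.mk (rels n m) (FreeGroup.of v ^ n v) = 1 :=
    PresentedGroup.one_of_mem (Or.inl ⟨v, rfl⟩)
  rw [map_pow] at h1
  exact h1

theorem ev_rel {u v : V} (h : u ≠ v) : ((PresentedGroup.of u : Ev n m) * PresentedGroup.of v) ^ m u v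
    = (PresentedGroup.of v * PresentedGroup.of u) ^ m u v := by
  have h1 : PresentedGroup.mk (rels n m) ((FreeGroup.of u * FreeGroup.of v) ^ m u v *
    ((FreeGroup.of v * FreeGroup.of u) ^ m u v)⁻¹) = 1 :=
    PresentedGroup.one_of_mem (Or.inr ⟨u, v, h, rfl⟩)
  rw [map_mul, map_inv, mul_inv_eq_one, map_pow, map_pow, map_mul, map_mul] at h1
  exact h1

/-- homomorphisms from an even group -/
def evHom {H : Type} [Group H] (f : V → H) (h1 : ∀ v, f v ^ n v = 1)
    (h2 : ∀ u v, u ≠ v → (f u * f v) ^ m u v = (f v * f u) ^ m u v) : Ev n m →* H :=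
  PresentedGroup.toGroup (f := f) (by
    rintro r (⟨v, rfl⟩ | ⟨u, v, huv, rfl⟩)
    · rw [map_pow, FreeGroup.lift_apply_of, h1]
    · rw [map_mul, map_inv, mul_inv_eq_one, map_pow, map_pow, map_mul, map_mul,
        FreeGroup.lift_apply_of, FreeGroup.lift_apply_of, h2 u v huv])

theorem evHom_of {H : Type} [Group H] (f : V → H) (h1 : ∀ v, f v ^ n v = 1)
    (h2 : ∀ u v, u ≠ v → (f u * f v) ^ m u v = (f v * f u) ^ m u v) (v : V) :
    evHom f h1 h2 (PresentedGroup.of v) = f v :=
  PresentedGroup.toGroup.of _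

end basic

variable {V : Type}

/-- the presentation with the generators `(v, ())` -/
def ER (n : V → ℕ) (m : V → V → ℕ) : Set (FreeGroup (V × Unit)) :=
  FreeGroup.map (fun v => (v, ())) '' rels n m

variable {n : V → ℕ} {m : V → V → ℕ}

theorem mk_inl (v : V) : (FreeGroup.of (v, ()) : FreeGroup (V × Unit)) ^ n v ∈ ER n m := by
  refine ⟨FreeGroup.of v ^ n v, Or.inl ⟨v, rfl⟩, ?_⟩
  rw [map_pow, FreeGroup.map.of]

theorem mk_inr {u v : V} (h : u ≠ v) :
    ((FreeGroup.of (u, ()) * FreeGroup.of (v, ())) ^ m u v *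
      ((FreeGroup.of (v, ()) * FreeGroup.of (u, ())) ^ m u v)⁻¹ : FreeGroup (V × Unit)) ∈ ER n m := by
  refine ⟨(FreeGroup.of u * FreeGroup.of v) ^ m u v * ((FreeGroup.of v * FreeGroup.of u) ^ m u v)⁻¹,
    Or.inr ⟨u, v, h, rfl⟩, ?_⟩
  rw [map_mul, map_inv, map_pow, map_pow, map_mul, map_mul, FreeGroup.map.of, FreeGroup.map.of]

theorem mem_ER {r : FreeGroup (V × Unit)} (h : r ∈ ER n m) :
    (∃ v, r = FreeGroup.of (v, ()) ^ n v) ∨ ∃ u v, u ≠ v ∧
      r = (FreeGroup.of (u, ()) * FreeGroup.of (v, ())) ^ m u v *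
      ((FreeGroup.of (v, ()) * FreeGroup.of (u, ())) ^ m u v)⁻¹ := by
  obtain ⟨_, ⟨v, rfl⟩ | ⟨u, v, huv, rfl⟩, rfl⟩ := h
  · left
    exact ⟨v, by rw [map_pow, FreeGroup.map.of]⟩
  · right
    exact ⟨u, v, huv, by
      rw [map_mul, map_inv, map_pow, map_pow, map_mul, map_mul, FreeGroup.map.of, FreeGroup.map.of]⟩

theorem ER_delClosed : DelClosed (ER n m) := by
  intro r hr S
  rcases mem_ER hr with ⟨v, rfl⟩ | ⟨u, v, huv, rfl⟩
  · by_cases hv : v ∈ S
    · left
      rw [map_pow, del_of_mem (x := (v, ())) hv]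
      exact hr
    · right
      rw [map_pow, del_of_not_mem (x := (v, ())) hv, one_pow]
  · by_cases hv : v ∈ S
    · by_cases hu : u ∈ S
      · left
        rw [map_mul, map_inv, map_pow, map_pow, map_mul, map_mul, del_of_mem (x := (u, ())) hu,
          del_of_mem (x := (v, ())) hv]
        exact hr
      · right
        rw [map_mul, map_inv, map_pow, map_pow, map_mul, map_mul, del_of_not_mem (x := (u, ())) hu,
          one_mul, mul_one, mul_inv_cancel]
    · right
      rw [map_mul, map_inv, map_pow, map_pow, map_mul, map_mul, del_of_not_mem (x := (v, ())) hv,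
          one_mul, mul_one, mul_inv_cancel]

theorem ER_linked (hm : ∀ u v, m u v = m v u) {u v : V} (huv : u ≠ v) (h : Linked (ER n m) u v) :
    m u v ≠ 0 := by
  obtain ⟨r, hr, h1, h2⟩ := h
  have haux : ∀ {a w : V}, a ≠ w → a ∈ ({w}ᶜ : Set V) := fun h h' => h h'
  rcases mem_ER hr with ⟨w, rfl⟩ | ⟨a, b, hab, rfl⟩
  · exfalso
    have h3 : w = u := by
      by_contra hne
      exact h1 (by rw [map_pow, del_of_mem (x := (w, ())) (haux hne)])
    have h4 : w = v := by
      by_contra hne
      exact h2 (by rw [map_pow, del_of_mem (x := (w, ())) (haux hne)])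
    exact huv (h3.symm.trans h4)
  · have h3 : a = u ∨ b = u := by
      by_contra hne
      push Not at hne
      exact h1 (by rw [map_mul, map_inv, map_pow, map_pow, map_mul, map_mul,
        del_of_mem (x := (a, ())) (haux hne.1), del_of_mem (x := (b, ())) (haux hne.2)])
    have h4 : a = v ∨ b = v := by
      by_contra hne
      push Not at hne
      exact h2 (by rw [map_mul, map_inv, map_pow, map_pow, map_mul, map_mul,
        del_of_mem (x := (a, ())) (haux hne.1), del_of_mem (x := (b, ())) (haux hne.2)])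
    have h5 : m a b ≠ 0 := by
      intro h0
      apply h1
      rw [h0]
      simp
    rcases h3 with rfl | rfl
    · rcases h4 with h4 | rfl
      · exact absurd h4 huv
      · exact h5
    · rcases h4 with rfl | h4
      · rw [hm]
        exact h5
      · exact absurd h4 huv

/-- the even group and the presentation with the generators `(v, ())` -/
def evTo (n : V → ℕ) (m : V → V → ℕ) : Ev n m →* PresentedGroup (ER n m) :=
  evHom (fun v => PresentedGroup.of (v, ())) (fun v => by
    have h1 : PresentedGroup.mk (ER n m) (FreeGroup.of (v, ()) ^ n v) = 1 :=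
      PresentedGroup.one_of_mem (mk_inl v)
    rw [map_pow] at h1
    exact h1) (fun u v huv => by
    have h1 : PresentedGroup.mk (ER n m) ((FreeGroup.of (u, ()) * FreeGroup.of (v, ())) ^ m u v *
      ((FreeGroup.of (v, ()) * FreeGroup.of (u, ())) ^ m u v)⁻¹) = 1 :=
      PresentedGroup.one_of_mem (mk_inr huv)
    rw [map_mul, map_inv, mul_inv_eq_one, map_pow, map_pow, map_mul, map_mul] at h1
    exact h1)

theorem evTo_of (v : V) : evTo n m (PresentedGroup.of v) = PresentedGroup.of (v, ()) :=
  evHom_of _ _ _ v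

/-- the inverse -/
def evFrom (n : V → ℕ) (m : V → V → ℕ) : PresentedGroup (ER n m) →* Ev n m :=
  PresentedGroup.toGroup (f := fun x => (PresentedGroup.of x.1 : Ev n m)) (by
    intro r hr
    rcases mem_ER hr with ⟨v, rfl⟩ | ⟨u, v, huv, rfl⟩
    · rw [map_pow, FreeGroup.lift_apply_of, ev_pow]
    · rw [map_mul, map_inv, mul_inv_eq_one, map_pow, map_pow, map_mul, map_mul,
        FreeGroup.lift_apply_of, FreeGroup.lift_apply_of, ev_rel huv])

theorem evFrom_of (x : V × Unit) : evFrom n m (PresentedGroup.of x) = PresentedGroup.of x.1 :=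
  PresentedGroup.toGroup.of _

theorem evFrom_evTo (y : Ev n m) : evFrom n m (evTo n m y) = y := by
  have h1 : (evFrom n m).comp (evTo n m) = MonoidHom.id _ := by
    refine PresentedGroup.ext fun x => ?_
    rw [MonoidHom.comp_apply, evTo_of, evFrom_of]
    rfl
  exact DFunLike.congr_fun h1 y

theorem evTo_evFrom (y : PresentedGroup (ER n m)) : evTo n m (evFrom n m y) = y := by
  have h1 : (evTo n m).comp (evFrom n m) = MonoidHom.id _ := by
    refine PresentedGroup.ext fun x => ?_
    rw [MonoidHom.comp_apply, evFrom_of, evTo_of]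
    rfl
  exact DFunLike.congr_fun h1 y

theorem gr_pow {T : Set V} (v : V) :
    (PresentedGroup.of (v, ()) : Grp (ER n m) T) ^ n v = 1 := by
  have h1 := pj_rel (S := T) (mk_inl (n := n) (m := m) v)
  rw [map_pow] at h1
  exact h1

theorem gr_rel {T : Set V} {u v : V} (h : u ≠ v) :
    ((PresentedGroup.of (u, ()) : Grp (ER n m) T) * PresentedGroup.of (v, ())) ^ m u v
    = (PresentedGroup.of (v, ()) * PresentedGroup.of (u, ())) ^ m u v := by
  have h1 := pj_rel (S := T) (mk_inr (n := n) (m := m) h)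
  rw [map_mul, map_inv, mul_inv_eq_one, map_pow, map_pow, map_mul, map_mul] at h1
  exact h1

/-- the restricted even group maps to the group of `T` -/
def evrTo (n : V → ℕ) (m : V → V → ℕ) (T : Set V) : Evr n m T →* Grp (ER n m) T :=
  evHom (fun v => PresentedGroup.of ((v : V), ())) (fun _ => gr_pow _)
    (fun _ _ huv => gr_rel fun h => huv (Subtype.ext h))

theorem evrTo_of {T : Set V} (v : T) :
    evrTo n m T (PresentedGroup.of v) = PresentedGroup.of ((v : V), ()) :=
  evHom_of _ _ _ v

open Classical in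
/-- and back -/
noncomputable def evrFrom (n : V → ℕ) (m : V → V → ℕ) (T : Set V) : Grp (ER n m) T →* Evr n m T :=
  toG ER_delClosed (fun x => if h : x.1 ∈ T then PresentedGroup.of (⟨x.1, h⟩ : T) else 1)
    (fun x hx => dif_neg hx) (by
    intro r hr hT
    have haux : ∀ {a w : V}, a ≠ w → a ∈ ({w}ᶜ : Set V) := fun h h' => h h'
    rcases mem_ER hr with ⟨v, rfl⟩ | ⟨u, v, huv, rfl⟩
    · rw [map_pow, FreeGroup.lift_apply_of]
      by_cases hv : v ∈ T
      · rw [dif_pos hv]
        exact ev_pow (n := fun v : T => n v) (m := fun u v : T => m u v) ⟨v, hv⟩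
      · rw [dif_neg hv, one_pow]
    · rw [map_mul, map_inv, mul_inv_eq_one, map_pow, map_pow, map_mul, map_mul,
        FreeGroup.lift_apply_of, FreeGroup.lift_apply_of]
      by_cases hv : v ∈ T
      · by_cases hu : u ∈ T
        · rw [dif_pos hv, dif_pos hu]
          exact ev_rel (n := fun v : T => n v) (m := fun u v : T => m u v)
            (u := ⟨u, hu⟩) (v := ⟨v, hv⟩) fun h => huv (Subtype.ext_iff.1 h)
        · rw [dif_neg hu, one_mul, mul_one]
      · rw [dif_neg hv, one_mul, mul_one])

theorem evrFrom_of {T : Set V} {x : V × Unit} (h : x.1 ∈ T) :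
    evrFrom n m T (PresentedGroup.of x) = PresentedGroup.of ⟨x.1, h⟩ := by
  rw [evrFrom, toG_of, dif_pos h]

theorem evrTo_evrFrom {T : Set V} (y : Grp (ER n m) T) : evrTo n m T (evrFrom n m T y) = y := by
  have h1 : (evrTo n m T).comp (evrFrom n m T) = MonoidHom.id _ := by
    refine grp_ext fun x hx => ?_
    rw [MonoidHom.comp_apply, evrFrom_of hx, evrTo_of]
    rfl
  exact DFunLike.congr_fun h1 y

theorem evrFrom_evrTo {T : Set V} (y : Evr n m T) : evrFrom n m T (evrTo n m T y) = y := by
  have h1 : (evrFrom n m T).comp (evrTo n m T) = MonoidHom.id _ := by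
    refine PresentedGroup.ext fun x => ?_
    rw [MonoidHom.comp_apply, evrTo_of, evrFrom_of (x := ((x : V), ())) x.2]
    rfl
  exact DFunLike.congr_fun h1 y

variable {C : ∀ (G : Type) [Group G], Prop}
variable {Γ : Type} [Group Γ] [MulAction Γ V]

theorem ER_inv (hn : ∀ (γ : Γ) v, n (γ • v) = n v) (hm : ∀ (γ : Γ) u v, m (γ • u) (γ • v) = m u v) :
    Inv Γ (ER n m) := by
  intro γ r hr
  rcases mem_ER hr with ⟨v, rfl⟩ | ⟨u, v, huv, rfl⟩
  · rw [map_pow, mp_of, ← hn γ v]
    exact mk_inl _
  · rw [map_mul, map_inv, map_pow, map_pow, map_mul, map_mul, mp_of, mp_of, ← hm γ u v]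
    exact mk_inr fun h => huv (smul_left_cancel γ h)

/-- **even groups** -/
theorem even_iff (hC : ClosedE C) (hs : ∀ u v, m u v = m v u)
    (hn : ∀ (γ : Γ) v, n (γ • v) = n v) (hm : ∀ (γ : Γ) u v, m (γ • u) (γ • v) = m u v)
    (φ : Γ →* MulAut (Ev n m)) (hφ : ∀ γ v, φ γ (PresentedGroup.of v) = PresentedGroup.of (γ • v)) :
    C (Ev n m ⋊[φ] Γ) ↔ C Γ ∧ ∀ τ : Set V, τ.Finite → (∀ u ∈ τ, ∀ v ∈ τ, u ≠ v → m u v ≠ 0) →
      C (Evr n m τ) := by
  have h1 : C (Ev n m ⋊[φ] Γ) ↔ C (PresentedGroup (ER n m) ⋊[act (ER_inv hn hm)] Γ) := by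
    constructor
    · intro h
      refine hC.base.of_injective _ _ (SemidirectProduct.map (evFrom n m) (MonoidHom.id Γ) ?_) ?_ h
      · intro γ
        refine PresentedGroup.ext fun x => ?_
        show evFrom n m (act (ER_inv hn hm) γ (PresentedGroup.of x)) =
          φ γ (evFrom n m (PresentedGroup.of x))
        rw [act_of, evFrom_of, evFrom_of, hφ]
      · intro x y hxy
        have h3 := congrArg SemidirectProduct.left hxy
        have h4 := congrArg SemidirectProduct.right hxy
        apply SemidirectProduct.ext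
        · exact Function.LeftInverse.injective evTo_evFrom h3
        · exact h4
    · intro h
      refine hC.base.of_injective _ _ (SemidirectProduct.map (evTo n m) (MonoidHom.id Γ) ?_) ?_ h
      · intro γ
        refine PresentedGroup.ext fun x => ?_
        show evTo n m (φ γ (PresentedGroup.of x)) =
          act (ER_inv hn hm) γ (evTo n m (PresentedGroup.of x))
        rw [hφ, evTo_of, evTo_of, act_of]
      · intro x y hxy
        have h3 := congrArg SemidirectProduct.left hxy
        have h4 := congrArg SemidirectProduct.right hxy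
        apply SemidirectProduct.ext
        · exact Function.LeftInverse.injective evFrom_evTo h3
        · exact h4
  have h2 : ∀ τ : Set V, C (Evr n m τ) ↔ C (Grp (ER n m) τ) := by
    intro τ
    constructor
    · exact hC.base.of_injective _ _ (evrFrom n m τ)
        (Function.LeftInverse.injective evrTo_evrFrom)
    · exact hC.base.of_injective _ _ (evrTo n m τ)
        (Function.LeftInverse.injective evrFrom_evrTo)
  rw [h1]
  constructor
  · intro h
    refine ⟨hC.base.of_injective _ _ SemidirectProduct.inr SemidirectProduct.inr_injective h,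
      fun τ _ _ => ?_⟩
    rw [h2]
    exact hC.base.of_injective _ _ (SemidirectProduct.inl.comp (emb' ER_delClosed τ))
      (SemidirectProduct.inl_injective.comp (emb'_injective ER_delClosed τ)) h
  · rintro ⟨hΓ, h⟩
    refine sd_mem hC ER_delClosed (ER_inv hn hm) hΓ fun τ hτ hcl => ?_
    rw [← h2]
    exact h τ hτ fun u hu v hv huv => ER_linked hs huv (hcl u hu v hv huv)

end Pool.Agent.U38.LR
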