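import Pool.Agent.U38.LR.Even

/-!
# Even groups of type FC
-/

set_option autoImplicit false

namespace Pool.Agent.U38.LR

open Pool.Agent.Y110.FJ (ClosedE Amg)
open Pool.Agent.Y462.SS (Closed)

section gen

variable {C : ∀ (G : Type) [Group G], Prop}

/-- cyclic groups -/
theorem cyc (hC : Closed C) (G : Type) [Group G] (g : G) (hg : ∀ x : G, x ∈ Subgroup.zpowers g) :
    C G := by
  by_cases hfin : IsOfFinOrder g
  · have h1 : Finite G := by
      have h2 : Finite (Subgroup.zpowers g) := hfin.finite_zpowers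
      exact Finite.of_surjective (fun x : Subgroup.zpowers g => (x : G)) fun x => ⟨⟨x, hg x⟩, rfl⟩
    exact Pool.Agent.Y430.SS.of_finite hC G h1
  · have hinj : Function.Injective (zpowersHom G g) := by
      intro a b hab
      rw [zpowersHom_apply, zpowersHom_apply] at hab
      exact Multiplicative.toAdd.injective ((injective_zpow_iff_not_isOfFinOrder.2 hfin) hab)
    have hsurj : Function.Surjective (zpowersHom G g) := by
      intro x
      obtain ⟨j, hj⟩ := Subgroup.mem_zpowers_iff.1 (hg x)
      exact ⟨Multiplicative.ofAdd j, by rw [zpowersHom_apply]; exact hj⟩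
    exact hC.of_injective _ _ (MulEquiv.ofBijective _ ⟨hinj, hsurj⟩).symm.toMonoidHom
      (MulEquiv.ofBijective _ ⟨hinj, hsurj⟩).symm.injective hC.int

/-- central cyclic kernels -/
theorem cent_mem (hC : ClosedE C) (G T : Type) [Group G] [Group T] (z : G)
    (hz : ∀ g : G, z * g = g * z) (π : G →* T) (hT : C T) (hker : π.ker ≤ Subgroup.zpowers z) :
    C G := by
  have hcomm : ∀ (a : π.ker) (g : G), Commute (a : G) g := by
    intro a g
    obtain ⟨j, hj⟩ := Subgroup.mem_zpowers_iff.1 (hker a.2)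
    rw [← hj]
    exact Commute.zpow_left (hz g) j
  have hN : C π.ker := by
    refine hC.base.of_injective _ _ (Subgroup.inclusion hker) (Subgroup.inclusion_injective hker) ?_
    exact cyc hC.base _ ⟨z, Subgroup.mem_zpowers z⟩ (by
      rintro ⟨_, j, rfl⟩
      exact ⟨j, Subtype.ext rfl⟩)
  refine Pool.Agent.Y529.FJ.t_ext C hC G π.ker hN
    (hC.base.of_injective _ _ (QuotientGroup.kerLift π) (QuotientGroup.kerLift_injective π) hT) ?_
  intro g hg
  obtain ⟨Φ, hΦ⟩ : ∃ Φ : π.ker × Multiplicative ℤ →* G,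
      ∀ (a : π.ker) (j : ℤ), Φ (a, Multiplicative.ofAdd j) = a * g ^ j := by
    refine ⟨MonoidHom.noncommCoprod π.ker.subtype (zpowersHom _ g) ?_, ?_⟩
    · intro a j
      rw [zpowersHom_apply]
      exact hcomm a _
    · intro a j
      rw [MonoidHom.noncommCoprod_apply, zpowersHom_apply]
      rfl
  have hinj : Function.Injective Φ := by
    rw [injective_iff_map_eq_one]
    rintro ⟨a, j⟩ h
    have h1 : Φ (a, Multiplicative.ofAdd (Multiplicative.toAdd j)) = 1 := h
    rw [hΦ] at h1
    have h2 : g ^ (Multiplicative.toAdd j) ∈ π.ker := by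
      have h3 : g ^ (Multiplicative.toAdd j) = ((a⁻¹ : π.ker) : G) := by
        rw [Subgroup.coe_inv]
        exact (inv_eq_of_mul_eq_one_right h1).symm
      rw [h3]
      exact (a⁻¹ : π.ker).2
    have h4 : Multiplicative.toAdd j = 0 := by
      by_contra hne
      apply hg (Multiplicative.toAdd j).natAbs (Int.natAbs_pos.2 hne)
      rcases Int.natAbs_eq (Multiplicative.toAdd j) with h5 | h5
      · rw [h5, zpow_natCast] at h2
        exact h2
      · rw [h5, zpow_neg, zpow_natCast] at h2
        exact (Subgroup.inv_mem_iff _).1 h2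
    rw [h4, zpow_zero, mul_one] at h1
    have h5 : a = 1 := Subtype.ext h1
    have h6 : j = 1 := h4
    rw [h5, h6]
    rfl
  have hle : π.ker ⊔ Subgroup.zpowers g ≤ Φ.range := by
    rw [sup_le_iff]
    constructor
    · intro a ha
      refine ⟨(⟨a, ha⟩, Multiplicative.ofAdd 0), ?_⟩
      rw [hΦ, zpow_zero, mul_one]
    · rintro _ ⟨j, rfl⟩
      refine ⟨(1, Multiplicative.ofAdd j), ?_⟩
      rw [hΦ, Subgroup.coe_one, one_mul]
  refine hC.base.of_injective _ _ ((MonoidHom.ofInjective hinj).symm.toMonoidHom.comp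
    (Subgroup.inclusion hle)) ?_ (hC.base.prod _ _ hN hC.base.int)
  exact (MonoidHom.ofInjective hinj).symm.injective.comp (Subgroup.inclusion_injective hle)

/-- groups generated by two involutions -/
theorem dih (hC : Closed C) (G : Type) [Group G] (x y : G) (hx : x * x = 1) (hy : y * y = 1)
    (hg : Subgroup.closure {x, y} = ⊤) : C G := by
  have hxi : x⁻¹ = x := inv_eq_of_mul_eq_one_right hx
  have hyi : y⁻¹ = y := inv_eq_of_mul_eq_one_right hy
  have h1 : ∀ g : G, g ∈ Subgroup.zpowers (x * y) ∨ g * y ∈ Subgroup.zpowers (x * y) := by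
    intro g
    have h2 : g ∈ Subgroup.closure {x, y} := by rw [hg]; exact Subgroup.mem_top g
    have h3 : ∀ g : G, ∀ s ∈ ({x, y} : Set G),
        (g ∈ Subgroup.zpowers (x * y) ∨ g * y ∈ Subgroup.zpowers (x * y)) →
        (g * s ∈ Subgroup.zpowers (x * y) ∨ g * s * y ∈ Subgroup.zpowers (x * y)) := by
      rintro g s (rfl | rfl) (h | h)
      · right
        rw [mul_assoc]
        exact mul_mem h (Subgroup.mem_zpowers _)
      · left
        have h4 := mul_mem h (inv_mem (Subgroup.mem_zpowers (s * y)))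
        rwa [mul_inv_rev, hyi, hxi, ← mul_assoc, mul_assoc g, hy, mul_one] at h4
      · right
        rwa [mul_assoc, hy, mul_one]
      · left
        exact h
    induction h2 using Subgroup.closure_induction_right with
    | one => exact Or.inl (one_mem _)
    | mul_right g _ s hs ih => exact h3 g s hs ih
    | mul_inv_cancel g _ s hs ih =>
      have h5 : s⁻¹ = s := by
        rcases hs with rfl | rfl
        · exact hxi
        · exact hyi
      rw [h5]
      exact h3 g s hs ih
  have hfi : (Subgroup.zpowers (x * y)).FiniteIndex := by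
    rw [Subgroup.finiteIndex_iff_finite_quotient]
    refine Finite.of_surjective (fun b : Bool => if b then ((1 : G) : G ⧸ Subgroup.zpowers (x * y))
      else ((y : G) : G ⧸ Subgroup.zpowers (x * y))) ?_
    intro c
    obtain ⟨g, rfl⟩ := QuotientGroup.mk_surjective c
    rcases h1 g⁻¹ with h | h
    · refine ⟨true, ?_⟩
      show ((1 : G) : G ⧸ Subgroup.zpowers (x * y)) = _
      rw [QuotientGroup.eq, inv_one, one_mul]
      exact (Subgroup.inv_mem_iff _).1 h
    · refine ⟨false, ?_⟩
      show ((y : G) : G ⧸ Subgroup.zpowers (x * y)) = _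
      rw [QuotientGroup.eq]
      have h4 := inv_mem h
      rwa [mul_inv_rev, inv_inv] at h4
  refine hC.finiteIndex G _ hfi ?_
  exact cyc hC _ ⟨x * y, Subgroup.mem_zpowers _⟩ (by
      rintro ⟨_, j, rfl⟩
      exact ⟨j, Subtype.ext rfl⟩)

end gen

variable {V : Type} {n : V → ℕ} {m : V → V → ℕ}
variable {C : ∀ (G : Type) [Group G], Prop}

theorem grp_closure (T : Set V) : Subgroup.closure
    {y : Grp (ER n m) T | ∃ v ∈ T, y = PresentedGroup.of (v, ())} = ⊤ := by
  rw [eq_top_iff]
  have h1 : (⊤ : Subgroup (Grp (ER n m) T)) = Subgroup.closure (Set.range PresentedGroup.of) :=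
    (PresentedGroup.closure_range_of _).symm
  rw [h1, Subgroup.closure_le]
  rintro _ ⟨x, rfl⟩
  by_cases hx : x.1 ∈ T
  · exact Subgroup.subset_closure ⟨x.1, hx, rfl⟩
  · rw [pj_kill hx]
    exact one_mem _

/-- one vertex -/
theorem single_mem (hC : Closed C) (u : V) : C (Grp (ER n m) {u}) := by
  refine cyc hC _ (PresentedGroup.of (u, ())) fun x => ?_
  have h1 : x ∈ Subgroup.closure
      {y : Grp (ER n m) {u} | ∃ v ∈ ({u} : Set V), y = PresentedGroup.of (v, ())} := by
    rw [grp_closure]
    exact Subgroup.mem_top x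
  have h2 : {y : Grp (ER n m) {u} | ∃ v ∈ ({u} : Set V), y = PresentedGroup.of (v, ())} =
      {PresentedGroup.of (u, ())} := by
    ext y
    constructor
    · rintro ⟨v, rfl, rfl⟩
      rfl
    · rintro rfl
      exact ⟨u, rfl, rfl⟩
  rw [h2, ← Subgroup.zpowers_eq_closure] at h1
  exact h1

/-- no vertex -/
theorem empty_mem (hC : Closed C) (T : Set V) (hT : T = ∅) : C (Grp (ER n m) T) := by
  refine cyc hC _ 1 fun x => ?_
  have h1 : x ∈ Subgroup.closure
      {y : Grp (ER n m) T | ∃ v ∈ T, y = PresentedGroup.of (v, ())} := by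
    rw [grp_closure]
    exact Subgroup.mem_top x
  have h2 : {y : Grp (ER n m) T | ∃ v ∈ T, y = PresentedGroup.of (v, ())} = ∅ := by
    ext y
    simp [hT]
  rw [h2, Subgroup.closure_empty, Subgroup.mem_bot] at h1
  rw [h1]
  exact one_mem _

/-- a criterion with all finite cliques -/
theorem all_mem' (hC : ClosedE C) {I : Type} {R : Set (FreeGroup (V × I))} (hR : DelClosed R)
    (h : ∀ σ : Set V, σ.Finite → Clique R σ → C (Grp R σ)) : C (PresentedGroup R) := by
  refine hC.base.of_injective _ _ (ret' R Set.univ) ?_ (all_mem hC hR Set.univ fun σ h1 _ h2 =>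
    h σ h1 h2)
  have h1 : (emb' hR Set.univ).comp (ret' R Set.univ) = MonoidHom.id _ := by
    refine PresentedGroup.ext fun x => ?_
    rw [MonoidHom.comp_apply, ret'_of, emb'_of hR (Set.mem_univ _)]
    rfl
  exact Function.LeftInverse.injective (DFunLike.congr_fun h1)

/-- free products of cyclic groups -/
theorem free_mem (hC : ClosedE C) (n : V → ℕ) : C (PresentedGroup (ER n fun _ _ => 0)) := by
  refine all_mem' hC ER_delClosed fun σ _ hcl => ?_
  by_cases h : ∃ u, σ = {u}
  · obtain ⟨u, rfl⟩ := h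
    exact single_mem hC.base u
  · refine empty_mem hC.base σ ?_
    by_contra hne
    obtain ⟨u, hu⟩ := Set.nonempty_iff_ne_empty.2 hne
    apply h
    refine ⟨u, ?_⟩
    ext v
    constructor
    · intro hv
      by_contra huv
      exact ER_linked (fun _ _ => rfl) huv (hcl v hv u hu huv) rfl
    · rintro rfl
      exact hu

/-- two vertices, one of infinite order -/
theorem pair_mem0 (hC : ClosedE C) (hs : ∀ u v, m u v = m v u) {u v : V} (huv : u ≠ v)
    (hu : n u = 0) : C (Grp (ER n m) {u, v}) := by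
  classical
  obtain ⟨x, hx⟩ : ∃ x : Grp (ER n m) {u, v}, x = PresentedGroup.of (u, ()) := ⟨_, rfl⟩
  obtain ⟨y, hy⟩ : ∃ y : Grp (ER n m) {u, v}, y = PresentedGroup.of (v, ()) := ⟨_, rfl⟩
  have hxy : (x * y) ^ m u v = (y * x) ^ m u v := by
    rw [hx, hy]
    exact gr_rel huv
  have hyq : y ^ n v = 1 := by
    rw [hy]
    exact gr_pow v
  have hgen : ∀ {H : Type} [Group H] {f g : Grp (ER n m) {u, v} →* H}, f x = g x → f y = g y →
      f = g := by
    intro H _ f g h1 h2
    refine grp_ext fun w hw => ?_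
    obtain ⟨w, _⟩ := w
    rcases hw with hw | hw
    · have hw' : w = u := hw
      rw [hw', ← hx, h1]
    · have hw' : w = v := hw
      rw [hw', ← hy, h2]
  -- the central element
  have hzx : (x * y) ^ m u v * x = x * (x * y) ^ m u v := by
    rw [hxy]
    have h1 : ∀ k : ℕ, x * (y * x) ^ k = (x * y) ^ k * x := by
      intro k
      induction k with
      | zero => simp
      | succ k ih =>
        rw [pow_succ, ← mul_assoc, ih, pow_succ]
        group
    rw [h1, hxy]
  have hzy : (x * y) ^ m u v * y = y * (x * y) ^ m u v := by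
    have h1 : ∀ k : ℕ, y * (x * y) ^ k = (y * x) ^ k * y := by
      intro k
      induction k with
      | zero => simp
      | succ k ih =>
        rw [pow_succ, ← mul_assoc, ih, pow_succ]
        group
    rw [h1, hxy]
  obtain ⟨z, hz⟩ : ∃ z : Grp (ER n m) {u, v}, z = (x * y) ^ m u v := ⟨_, rfl⟩
  rw [← hz] at hzx hzy
  have hzc : ∀ g : Grp (ER n m) {u, v}, z * g = g * z := by
    have h1 : (MulAut.conj z).toMonoidHom = MonoidHom.id _ := by
      refine hgen ?_ ?_
      · show z * x * z⁻¹ = x
        rw [hzx, mul_inv_cancel_right]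
      · show z * y * z⁻¹ = y
        rw [hzy, mul_inv_cancel_right]
    intro g
    have h2 : z * g * z⁻¹ = g := DFunLike.congr_fun h1 g
    exact mul_inv_eq_iff_eq_mul.1 h2
  have hnor : (Subgroup.zpowers z).Normal := by
    constructor
    rintro _ ⟨j, rfl⟩ g
    have h1 : g * z ^ j * g⁻¹ = z ^ j := by
      have h2 : Commute g (z ^ j) := (Commute.zpow_right (hzc g).symm j : Commute g (z ^ j))
      rw [h2.eq, mul_inv_cancel_right]
    show g * z ^ j * g⁻¹ ∈ _
    rw [h1]
    exact ⟨j, rfl⟩
  -- the quotient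
  obtain ⟨N', hN'u, hN'v⟩ : ∃ N' : V → ℕ, N' u = m u v ∧ N' v = n v :=
    ⟨fun w => if w = u then m u v else n v, if_pos rfl, if_neg huv.symm⟩
  let T := PresentedGroup (ER N' fun _ _ => 0)
  let a : T := PresentedGroup.of (u, ())
  let b : T := PresentedGroup.of (v, ())
  have ha : a ^ m u v = 1 := by
    have h1 : PresentedGroup.mk (ER N' fun _ _ => 0) (FreeGroup.of (u, ()) ^ N' u) = 1 :=
      PresentedGroup.one_of_mem (mk_inl u)
    rw [map_pow, hN'u] at h1
    exact h1
  have hb : b ^ n v = 1 := by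
    have h1 : PresentedGroup.mk (ER N' fun _ _ => 0) (FreeGroup.of (v, ()) ^ N' v) = 1 :=
      PresentedGroup.one_of_mem (mk_inl v)
    rw [map_pow, hN'v] at h1
    exact h1
  have hconj : (b * (a * b⁻¹)) ^ m u v = 1 := by
    have h1 : b * (a * b⁻¹) = MulAut.conj b a := by rw [MulAut.conj_apply, mul_assoc]
    rw [h1, ← map_pow, ha, map_one]
  let f : V × Unit → T := fun w => if w.1 = u then a * b⁻¹ else if w.1 = v then b else 1
  have fu : f (u, ()) = a * b⁻¹ := if_pos rfl
  have fv : f (v, ()) = b := by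
    show (if v = u then _ else if v = v then _ else _) = _
    rw [if_neg huv.symm, if_pos rfl]
  have f0 : ∀ w : V × Unit, w.1 ∉ ({u, v} : Set V) → f w = 1 := by
    intro w hw
    have h1 : w.1 ≠ u := fun h => hw (Or.inl h)
    have h2 : w.1 ≠ v := fun h => hw (Or.inr h)
    show (if w.1 = u then _ else if w.1 = v then _ else _) = _
    rw [if_neg h1, if_neg h2]
  have hf : ∀ r ∈ ER n m, del {u, v} r = r → FreeGroup.lift f r = 1 := by
    intro r hr _
    rcases mem_ER hr with ⟨w, rfl⟩ | ⟨w, w', hww, rfl⟩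
    · rw [map_pow, FreeGroup.lift_apply_of]
      by_cases h1 : w = u
      · rw [h1, hu, pow_zero]
      · by_cases h2 : w = v
        · rw [h2, fv, hb]
        · rw [f0 (w, ()) (fun h => h.elim h1 h2), one_pow]
    · rw [map_mul, map_inv, mul_inv_eq_one, map_pow, map_pow, map_mul, map_mul,
        FreeGroup.lift_apply_of, FreeGroup.lift_apply_of]
      by_cases h1 : w ∈ ({u, v} : Set V)
      · by_cases h2 : w' ∈ ({u, v} : Set V)
        · rcases h1 with h1 | h1
          · rcases h2 with h2 | h2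
            · exact absurd (h1.trans h2.symm) hww
            · have h1' : w = u := h1
              have h2' : w' = v := h2
              rw [h1', h2', fu, fv, inv_mul_cancel_right, ha, hconj]
          · rcases h2 with h2 | h2
            · have h1' : w = v := h1
              have h2' : w' = u := h2
              rw [h1', h2', fu, fv, inv_mul_cancel_right, hs v u, ha, hconj]
            · exact absurd (h1.trans h2.symm) hww
        · rw [f0 (w', ()) h2, one_mul, mul_one]
      · rw [f0 (w, ()) h1, one_mul, mul_one]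
  let π : Grp (ER n m) {u, v} →* T := toG ER_delClosed f f0 hf
  have πx : π x = a * b⁻¹ := by rw [hx]; exact (toG_of ER_delClosed f f0 hf (u, ())).trans fu
  have πy : π y = b := by rw [hy]; exact (toG_of ER_delClosed f f0 hf (v, ())).trans fv
  -- the map back
  let g : V × Unit → Grp (ER n m) {u, v} ⧸ Subgroup.zpowers z := fun w =>
    if w.1 = u then ((x * y : Grp (ER n m) {u, v}) : Grp (ER n m) {u, v} ⧸ Subgroup.zpowers z) else
      if w.1 = v then ((y : Grp (ER n m) {u, v}) : Grp (ER n m) {u, v} ⧸ Subgroup.zpowers z) else 1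
  have gu : g (u, ()) = ((x * y : Grp (ER n m) {u, v}) :
    Grp (ER n m) {u, v} ⧸ Subgroup.zpowers z) := if_pos rfl
  have gv : g (v, ()) = ((y : Grp (ER n m) {u, v}) :
      Grp (ER n m) {u, v} ⧸ Subgroup.zpowers z) := by
    show (if v = u then _ else if v = v then _ else _) = _
    rw [if_neg huv.symm, if_pos rfl]
  have hg : ∀ r ∈ ER N' fun _ _ => 0, FreeGroup.lift g r = 1 := by
    intro r hr
    rcases mem_ER hr with ⟨w, rfl⟩ | ⟨w, w', hww, rfl⟩
    · rw [map_pow, FreeGroup.lift_apply_of]
      by_cases h1 : w = u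
      · rw [h1, gu, hN'u, ← QuotientGroup.mk_pow, ← hz]
        exact (QuotientGroup.eq_one_iff z).2 (Subgroup.mem_zpowers z)
      · by_cases h2 : w = v
        · rw [h2, gv, hN'v, ← QuotientGroup.mk_pow, hyq, QuotientGroup.mk_one]
        · have h3 : g (w, ()) = 1 := by
            show (if w = u then _ else if w = v then _ else _) = _
            rw [if_neg h1, if_neg h2]
          rw [h3, one_pow]
    · simp
  let S : T →* Grp (ER n m) {u, v} ⧸ Subgroup.zpowers z := PresentedGroup.toGroup hg
  have Sa : S a = ((x * y : Grp (ER n m) {u, v}) :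
    Grp (ER n m) {u, v} ⧸ Subgroup.zpowers z) := (PresentedGroup.toGroup.of hg).trans gu
  have Sb : S b = ((y : Grp (ER n m) {u, v}) :
    Grp (ER n m) {u, v} ⧸ Subgroup.zpowers z) := (PresentedGroup.toGroup.of hg).trans gv
  have hSπ : S.comp π = QuotientGroup.mk' (Subgroup.zpowers z) := by
    refine hgen ?_ ?_
    · rw [MonoidHom.comp_apply, πx, map_mul, map_inv, Sa, Sb, QuotientGroup.mk'_apply,
        ← QuotientGroup.mk_inv, ← QuotientGroup.mk_mul, mul_inv_cancel_right]
    · rw [MonoidHom.comp_apply, πy, Sb, QuotientGroup.mk'_apply]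
  refine cent_mem hC _ T z hzc π (free_mem hC N') ?_
  intro k hk
  have h1 := DFunLike.congr_fun hSπ k
  rw [MonoidHom.comp_apply, (hk : π k = 1), map_one, QuotientGroup.mk'_apply] at h1
  exact (QuotientGroup.eq_one_iff k).1 h1.symm

/-- two vertices -/
theorem pair_mem (hC : ClosedE C) (hs : ∀ u v, m u v = m v u) {u v : V} (huv : u ≠ v)
    (h : n u = 0 ∨ n v = 0 ∨ n u = 2 ∧ n v = 2) : C (Grp (ER n m) {u, v}) := by
  rcases h with h | h | ⟨h1, h2⟩
  · exact pair_mem0 hC hs huv h
  · rw [Set.pair_comm]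
    exact pair_mem0 hC hs huv.symm h
  · refine dih hC.base _ (PresentedGroup.of (u, ())) (PresentedGroup.of (v, ())) ?_ ?_ ?_
    · rw [← sq, ← h1]
      exact gr_pow u
    · rw [← sq, ← h2]
      exact gr_pow v
    · rw [← grp_closure (n := n) (m := m) {u, v}]
      congr 1
      ext y
      constructor
      · rintro (rfl | rfl)
        · exact ⟨u, Or.inl rfl, rfl⟩
        · exact ⟨v, Or.inr rfl, rfl⟩
      · rintro ⟨w, (rfl | rfl), rfl⟩
        · exact Or.inl rfl
        · exact Or.inr rfl

/-- direct products -/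
theorem split_mem (hC : Closed C) {T A B : Set V} (hA : A ⊆ T) (hB : B ⊆ T) (hT : T ⊆ A ∪ B)
    (hcomm : ∀ a ∈ A, ∀ b ∈ B, a ≠ b ∧ m a b = 1) (h1 : C (Grp (ER n m) A))
    (h2 : C (Grp (ER n m) B)) : C (Grp (ER n m) T) := by
  have hc : ∀ (a : Grp (ER n m) A) (b : Grp (ER n m) B),
      Commute (emb ER_delClosed hA a) (emb ER_delClosed hB b) := by
    have h3 : (emb (ER_delClosed (n := n) (m := m)) hB).range ≤
        Subgroup.centralizer ((emb (ER_delClosed (n := n) (m := m)) hA).range :
          Set (Grp (ER n m) T)) := by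
      rw [MonoidHom.range_eq_map, ← grp_closure, MonoidHom.map_closure, Subgroup.closure_le]
      rintro _ ⟨_, ⟨b, hb, rfl⟩, rfl⟩
      rw [SetLike.mem_coe, Subgroup.mem_centralizer_iff]
      have h4 : (emb (ER_delClosed (n := n) (m := m)) hA).range ≤
          Subgroup.centralizer {emb (ER_delClosed (n := n) (m := m)) hB
            (PresentedGroup.of (b, ()))} := by
        rw [MonoidHom.range_eq_map, ← grp_closure, MonoidHom.map_closure, Subgroup.closure_le]
        rintro _ ⟨_, ⟨a, ha, rfl⟩, rfl⟩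
        rw [SetLike.mem_coe, Subgroup.mem_centralizer_iff]
        rintro _ rfl
        rw [emb_of (x := (a, ())) _ hA ha, emb_of (x := (b, ())) _ hB hb]
        have h5 := gr_rel (n := n) (m := m) (T := T) (hcomm a ha b hb).1
        rw [(hcomm a ha b hb).2, pow_one, pow_one] at h5
        exact h5.symm
      intro y hy
      exact ((Subgroup.mem_centralizer_iff.1 (h4 hy)) _ rfl).symm
    intro a b
    exact (Subgroup.mem_centralizer_iff.1 (h3 ⟨b, rfl⟩)) _ ⟨a, rfl⟩
  let Ψ : Grp (ER n m) A × Grp (ER n m) B →* Grp (ER n m) T :=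
    MonoidHom.noncommCoprod (emb ER_delClosed hA) (emb ER_delClosed hB) hc
  have hinv : Ψ.comp ((ret (ER n m) hA).prod (ret (ER n m) hB)) = MonoidHom.id _ := by
    refine grp_ext fun x hx => ?_
    rw [MonoidHom.comp_apply, MonoidHom.prod_apply, ret_of, ret_of, MonoidHom.noncommCoprod_apply,
      MonoidHom.id_apply]
    rcases hT hx with h | h
    · have h' : x.1 ∉ B := fun h' => (hcomm _ h _ h').1 rfl
      rw [emb_of _ _ h, pj_kill h', map_one, mul_one]
    · have h' : x.1 ∉ A := fun h' => (hcomm _ h' _ h).1 rfl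
      rw [emb_of _ _ h, pj_kill h', map_one, one_mul]
  have hinj : Function.Injective ((ret (ER n m) hA).prod (ret (ER n m) hB)) := by
    refine Function.LeftInverse.injective (g := Ψ) fun y => ?_
    exact DFunLike.congr_fun hinv y
  exact hC.of_injective _ _ ((ret (ER n m) hA).prod (ret (ER n m) hB)) hinj (hC.prod _ _ h1 h2)

/-- **complete sets of vertices of type FC** -/
theorem fc_clique (hC : ClosedE C) (hs : ∀ u v, m u v = m v u)
    (hfc : ∀ u v w, u ≠ v → v ≠ w → u ≠ w → m u v ≠ 0 → m v w ≠ 0 → m u w ≠ 0 →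
      m u v = 1 ∨ m v w = 1)
    (hn : ∀ u v, u ≠ v → 1 < m u v → n u = 0 ∨ n v = 0 ∨ n u = 2 ∧ n v = 2) :
    ∀ (k : ℕ) (T : Set V), T.Finite → T.ncard ≤ k → (∀ u ∈ T, ∀ v ∈ T, u ≠ v → m u v ≠ 0) →
      C (Grp (ER n m) T) := by
  intro k
  induction k with
  | zero =>
    intro T hT hk _
    refine empty_mem hC.base T ?_
    rw [← Set.ncard_eq_zero hT]
    omega
  | succ k ih =>
    intro T hT hk hcl
    by_cases hne : T = ∅
    · exact empty_mem hC.base T hne
    obtain ⟨u, hu⟩ := Set.nonempty_iff_ne_empty.2 hne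
    by_cases hv : ∃ v ∈ T, u ≠ v ∧ 1 < m u v
    · obtain ⟨v, hv, huv, h1⟩ := hv
      have h2 : (T \ {u, v}).ncard ≤ k := by
        have h3 : (T \ {u, v}).ncard < T.ncard :=
          Set.ncard_lt_ncard ⟨Set.sdiff_subset, fun h => (h hu).2 (Or.inl rfl)⟩ hT
        omega
      have hmu : ∀ w ∈ T \ {u, v}, m v w = 1 := by
        intro w hw
        have hwu : u ≠ w := fun h => hw.2 (Or.inl h.symm)
        have hwv : v ≠ w := fun h => hw.2 (Or.inr h.symm)
        rcases hfc u v w huv hwv hwu (hcl u hu v hv huv) (hcl v hv w hw.1 hwv)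
          (hcl u hu w hw.1 hwu) with h | h
        · omega
        · exact h
      have hmv : ∀ w ∈ T \ {u, v}, m u w = 1 := by
        intro w hw
        have hwu : u ≠ w := fun h => hw.2 (Or.inl h.symm)
        have hwv : v ≠ w := fun h => hw.2 (Or.inr h.symm)
        rcases hfc v u w huv.symm hwu hwv (hcl v hv u hu huv.symm) (hcl u hu w hw.1 hwu)
          (hcl v hv w hw.1 hwv) with h | h
        · rw [hs] at h
          omega
        · exact h
      refine split_mem hC.base (A := {u, v}) (B := T \ {u, v}) ?_ Set.sdiff_subset ?_ ?_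
        (pair_mem hC hs huv (hn u v huv h1))
        (ih _ (hT.subset Set.sdiff_subset) h2 fun a ha b hb => hcl a ha.1 b hb.1)
      · rintro w (rfl | rfl)
        · exact hu
        · exact hv
      · intro w hw
        by_cases h : w ∈ ({u, v} : Set V)
        · exact Or.inl h
        · exact Or.inr ⟨hw, h⟩
      · rintro a (rfl | rfl) b hb
        · exact ⟨fun h => hb.2 (Or.inl h.symm), hmv b hb⟩
        · exact ⟨fun h => hb.2 (Or.inr h.symm), hmu b hb⟩
    · push Not at hv
      have h2 : (T \ {u}).ncard ≤ k := by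
        have h3 : (T \ {u}).ncard < T.ncard :=
          Set.ncard_lt_ncard ⟨Set.sdiff_subset, fun h => (h hu).2 rfl⟩ hT
        omega
      refine split_mem hC.base (A := {u}) (B := T \ {u}) (Set.singleton_subset_iff.2 hu)
        Set.sdiff_subset ?_ ?_ (single_mem hC.base u)
        (ih _ (hT.subset Set.sdiff_subset) h2 fun a ha b hb => hcl a ha.1 b hb.1)
      · intro w hw
        by_cases h : w ∈ ({u} : Set V)
        · exact Or.inl h
        · exact Or.inr ⟨hw, h⟩
      · rintro a rfl b hb
        have h3 : a ≠ b := fun h => hb.2 h.symm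
        have h4 := hcl a hu b hb.1 h3
        have h5 := hv b hb.1 h3
        exact ⟨h3, by omega⟩

variable {Γ : Type} [Group Γ] [MulAction Γ V]

/-- **even groups of type FC** -/
theorem fc_iff (hC : ClosedE C) (hs : ∀ u v, m u v = m v u)
    (hfc : ∀ u v w, u ≠ v → v ≠ w → u ≠ w → m u v ≠ 0 → m v w ≠ 0 → m u w ≠ 0 →
      m u v = 1 ∨ m v w = 1)
    (hn' : ∀ u v, u ≠ v → 1 < m u v → n u = 0 ∨ n v = 0 ∨ n u = 2 ∧ n v = 2)
    (hn : ∀ (γ : Γ) v, n (γ • v) = n v) (hm : ∀ (γ : Γ) u v, m (γ • u) (γ • v) = m u v)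
    (φ : Γ →* MulAut (Ev n m)) (hφ : ∀ γ v, φ γ (PresentedGroup.of v) = PresentedGroup.of (γ • v)) :
    C (Ev n m ⋊[φ] Γ) ↔ C Γ := by
  rw [even_iff hC hs hn hm φ hφ]
  refine ⟨fun h => h.1, fun h => ⟨h, fun τ hτ hcl => ?_⟩⟩
  exact hC.base.of_injective _ _ (evrTo n m τ)
    (Function.LeftInverse.injective evrFrom_evrTo) (fc_clique hC hs hfc hn' _ τ hτ le_rfl hcl)

end Pool.Agent.U38.LR
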