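import Pool.Agent.U38.LR.Basic
import Pool.Agent.Q30.FJ.Crit

/-!
# The groups of finite sets of vertices, and of arbitrary sets, are in the class if the groups of the
finite cliques are
-/

set_option autoImplicit false

namespace Pool.Agent.U38.LR

open Pool.Agent.Y110.FJ (ClosedE Amg)

variable {V I : Type} {R : Set (FreeGroup (V × I))}

open Classical in
/-- the amalgamated product belonging to two vertices which are not linked -/
theorem amg (hR : DelClosed R) {T : Set V} {u v : V} (huv : u ≠ v)
    (hl : ¬ Linked R u v) :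
    Amg (emb hR (S := T \ {u}) (T := T) Set.sdiff_subset).range
      (emb hR (S := T \ {v}) (T := T) Set.sdiff_subset).range
      (emb hR (S := T \ {u, v}) (T := T) Set.sdiff_subset).range where
  le_left := range_mono hR (T := T \ {u}) (fun x hx => ⟨hx.1, fun h => hx.2 (Or.inl h)⟩)
    Set.sdiff_subset
  le_right := range_mono hR (T := T \ {v}) (fun x hx => ⟨hx.1, fun h => hx.2 (Or.inr h)⟩)
    Set.sdiff_subset
  gen := by
    rw [eq_top_iff]
    have h1 : (⊤ : Subgroup (Grp R T)) = Subgroup.closure (Set.range PresentedGroup.of) :=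
      (PresentedGroup.closure_range_of _).symm
    rw [h1, Subgroup.closure_le]
    rintro _ ⟨x, rfl⟩
    by_cases hx : x.1 ∈ T
    · by_cases hxu : x.1 = u
      · exact Subgroup.mem_sup_right (of_mem_range hR (S := T \ {v}) Set.sdiff_subset
          ⟨hx, fun h => huv (hxu ▸ h)⟩)
      · exact Subgroup.mem_sup_left (of_mem_range hR (S := T \ {u}) Set.sdiff_subset
          ⟨hx, hxu⟩)
    · rw [pj_kill hx]
      exact one_mem _
  univ := by
    intro H _ f g hfg
    let f' : Grp R (T \ {u}) →* H := f.comp (emb hR (S := T \ {u}) (T := T) Set.sdiff_subset).rangeRestrict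
    let g' : Grp R (T \ {v}) →* H := g.comp (emb hR (S := T \ {v}) (T := T) Set.sdiff_subset).rangeRestrict
    have hfg' : ∀ x : V × I, x.1 ∈ T \ {u, v} →
        f' (PresentedGroup.of x) = g' (PresentedGroup.of x) := by
      intro x hx
      have hxu : x.1 ∈ T \ {u} := ⟨hx.1, fun h => hx.2 (Or.inl h)⟩
      have hxv : x.1 ∈ T \ {v} := ⟨hx.1, fun h => hx.2 (Or.inr h)⟩
      have h1 := hfg (PresentedGroup.of x) (of_mem_range hR (S := T \ {u, v}) Set.sdiff_subset hx)
      have e1 : (emb hR (S := T \ {u}) (T := T) Set.sdiff_subset).rangeRestrict (PresentedGroup.of x) =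
          ⟨PresentedGroup.of x, of_mem_range hR (S := T \ {u}) Set.sdiff_subset hxu⟩ :=
        Subtype.ext (emb_of hR _ hxu)
      have e2 : (emb hR (S := T \ {v}) (T := T) Set.sdiff_subset).rangeRestrict (PresentedGroup.of x) =
          ⟨PresentedGroup.of x, of_mem_range hR (S := T \ {v}) Set.sdiff_subset hxv⟩ :=
        Subtype.ext (emb_of hR _ hxv)
      show f _ = g _
      rw [e1, e2]
      exact h1
    let F : V × I → H := fun x => if x.1 ∈ T \ {u} then f' (PresentedGroup.of x) else
      if x.1 ∈ T then g' (PresentedGroup.of x) else 1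
    have hF : ∀ x : V × I, x.1 ∈ T \ {v} → F x = g' (PresentedGroup.of x) := by
      intro x hx
      by_cases hxu : x.1 ∈ T \ {u}
      · have h2 : x.1 ∈ T \ {u, v} := ⟨hx.1, fun h => h.elim hxu.2 hx.2⟩
        show (if x.1 ∈ T \ {u} then _ else _) = _
        rw [if_pos hxu, hfg' x h2]
      · show (if x.1 ∈ T \ {u} then _ else _) = _
        rw [if_neg hxu, if_pos hx.1]
    have hF' : ∀ x : V × I, x.1 ∈ T \ {u} → F x = f' (PresentedGroup.of x) := by
      intro x hx
      show (if x.1 ∈ T \ {u} then _ else _) = _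
      rw [if_pos hx]
    have hrel : ∀ r ∈ R, del T r = r → FreeGroup.lift F r = 1 := by
      intro r hr hT
      have h3 : del {u}ᶜ r = r ∨ del {v}ᶜ r = r := by
        by_contra hc
        push Not at hc
        exact hl ⟨r, hr, hc.1, hc.2⟩
      rcases h3 with h3 | h3
      · have h4 : del (T \ {u}) r = r := by
          have h5 : T \ {u} = {u}ᶜ ∩ T := by ext x; simp [and_comm]
          rw [h5, ← del_del, hT, h3]
        rw [hom_ext (g := f'.comp (pj R (T \ {u}))) (T \ {u}) (fun x hx => ?_) r h4,
          MonoidHom.comp_apply, pj_rel hr, map_one]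
        rw [FreeGroup.lift_apply_of, hF' x hx]
        rfl
      · have h4 : del (T \ {v}) r = r := by
          have h5 : T \ {v} = {v}ᶜ ∩ T := by ext x; simp [and_comm]
          rw [h5, ← del_del, hT, h3]
        rw [hom_ext (g := g'.comp (pj R (T \ {v}))) (T \ {v}) (fun x hx => ?_) r h4,
          MonoidHom.comp_apply, pj_rel hr, map_one]
        rw [FreeGroup.lift_apply_of, hF x hx]
        rfl
    have h0 : ∀ x : V × I, x.1 ∉ T → F x = 1 := by
      intro x hx
      show (if x.1 ∈ T \ {u} then _ else if x.1 ∈ T then _ else _) = _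
      rw [if_neg fun h => hx h.1, if_neg hx]
    refine ⟨toG hR F h0 hrel, ?_, ?_⟩
    · rintro ⟨_, ⟨y, rfl⟩⟩
      have h1 : (toG hR F h0 hrel).comp (emb hR (S := T \ {u}) (T := T) Set.sdiff_subset) = f' := by
        refine grp_ext fun x hx => ?_
        rw [MonoidHom.comp_apply, emb_of hR _ hx, toG_of, hF' x hx]
      exact DFunLike.congr_fun h1 y
    · rintro ⟨_, ⟨y, rfl⟩⟩
      have h1 : (toG hR F h0 hrel).comp (emb hR (S := T \ {v}) (T := T) Set.sdiff_subset) = g' := by
        refine grp_ext fun x hx => ?_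
        rw [MonoidHom.comp_apply, emb_of hR _ hx, toG_of, hF x hx]
      exact DFunLike.congr_fun h1 y

variable {C : ∀ (G : Type) [Group G], Prop}

theorem step (hC : ClosedE C) (hR : DelClosed R) {T : Set V} {u v : V} (huv : u ≠ v)
    (hl : ¬ Linked R u v) (h1 : C (Grp R (T \ {u}))) (h2 : C (Grp R (T \ {v}))) :
    C (Grp R T) := by
  refine Pool.Agent.Y417.FJ.t_am (Pool.Agent.Y961.FJ.t_perm Pool.Agent.Y529.FJ.t_ext) C hC (Grp R T)
    (Grp R (T \ {u}) × Grp R (T \ {v})) _ _ _ (amg hR (T := T) huv hl)
    ((ret R Set.sdiff_subset).prod (ret R Set.sdiff_subset)) ?_ ?_ (hC.base.prod _ _ h1 h2)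
  · rintro _ ⟨y, rfl⟩ h
    rw [MonoidHom.prod_apply, Prod.mk_eq_one, ret_emb] at h
    rw [h.1, map_one]
  · rintro _ ⟨y, rfl⟩ h
    rw [MonoidHom.prod_apply, Prod.mk_eq_one, ret_emb] at h
    rw [h.2, map_one]

/-- **finite sets of vertices** -/
theorem fin_mem (hC : ClosedE C) (hR : DelClosed R) : ∀ (n : ℕ) (T : Set V), T.Finite →
    T.ncard = n → (∀ σ : Set V, σ ⊆ T → Clique R σ → C (Grp R σ)) → C (Grp R T) := by
  intro n
  induction n with
  | zero =>
    intro T hT hn h
    refine h T subset_rfl ?_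
    rw [Set.ncard_eq_zero hT] at hn
    rw [hn]
    intro u hu
    exact absurd hu (Set.notMem_empty u)
  | succ n ih =>
    intro T hT hn h
    by_cases hcl : Clique R T
    · exact h T subset_rfl hcl
    · unfold Clique at hcl
      push Not at hcl
      obtain ⟨u, hu, v, hv, huv, hl⟩ := hcl
      have hsub : ∀ w : V, T \ {w} ⊆ T := fun w => Set.sdiff_subset
      have hcard : ∀ w ∈ T, (T \ {w}).ncard = n := by
        intro w hw
        rw [Set.ncard_sdiff_singleton_of_mem hw, hn]
        rfl
      exact step hC hR huv hl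
        (ih _ (hT.subset (hsub u)) (hcard u hu) fun σ hσ => h σ (hσ.trans (hsub u)))
        (ih _ (hT.subset (hsub v)) (hcard v hv) fun σ hσ => h σ (hσ.trans (hsub v)))

/-- every element comes from a finite set of vertices -/
theorem exists_fin (hR : DelClosed R) {T : Set V} (y : Grp R T) :
    ∃ (S : Set V), S.Finite ∧ ∃ h : S ⊆ T, y ∈ (emb hR h).range := by
  have h1 : y ∈ Subgroup.closure (Set.range (PresentedGroup.of : V × I → Grp R T)) := by
    rw [PresentedGroup.closure_range_of]
    exact Subgroup.mem_top y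
  induction h1 using Subgroup.closure_induction with
  | mem y hy =>
    obtain ⟨x, rfl⟩ := hy
    by_cases hx : x.1 ∈ T
    · exact ⟨{x.1}, Set.finite_singleton _, Set.singleton_subset_iff.2 hx,
        of_mem_range hR _ rfl⟩
    · rw [pj_kill hx]
      exact ⟨∅, Set.finite_empty, Set.empty_subset _, one_mem _⟩
  | one => exact ⟨∅, Set.finite_empty, Set.empty_subset _, one_mem _⟩
  | mul y z _ _ hy hz =>
    obtain ⟨S, hS, h, hy⟩ := hy
    obtain ⟨S', hS', h', hz⟩ := hz
    exact ⟨S ∪ S', hS.union hS', Set.union_subset h h',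
      mul_mem (range_mono hR Set.subset_union_left (Set.union_subset h h') hy)
        (range_mono hR Set.subset_union_right (Set.union_subset h h') hz)⟩
  | inv y _ hy =>
    obtain ⟨S, hS, h, hy⟩ := hy
    exact ⟨S, hS, h, inv_mem hy⟩

/-- finitely many elements -/
theorem exists_fin' (hR : DelClosed R) {T : Set V} (E : Set (Grp R T)) (hE : E.Finite) :
    ∃ (S : Set V), S.Finite ∧ ∃ h : S ⊆ T, E ⊆ (emb hR h).range := by
  induction E, hE using Set.Finite.induction_on with
  | empty => exact ⟨∅, Set.finite_empty, Set.empty_subset _, Set.empty_subset _⟩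
  | insert _ _ ih =>
    rename_i y E _ _
    obtain ⟨S, hS, h, hE⟩ := ih
    obtain ⟨S', hS', h', hy⟩ := exists_fin hR y
    refine ⟨S ∪ S', hS.union hS', Set.union_subset h h', ?_⟩
    rw [Set.insert_subset_iff]
    exact ⟨range_mono hR Set.subset_union_right (Set.union_subset h h') hy,
      hE.trans (range_mono hR Set.subset_union_left (Set.union_subset h h'))⟩

/-- **arbitrary sets of vertices** -/
theorem all_mem (hC : ClosedE C) (hR : DelClosed R) (T : Set V)
    (h : ∀ σ : Set V, σ.Finite → σ ⊆ T → Clique R σ → C (Grp R σ)) : C (Grp R T) := by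
  refine Q30.FJ.of_fg hC.base _ fun s => ?_
  obtain ⟨S, hS, hST, hs⟩ := exists_fin' hR (s : Set (Grp R T)) s.finite_toSet
  have h1 : Subgroup.closure (s : Set (Grp R T)) ≤ (emb hR hST).range := by
    rw [Subgroup.closure_le]
    exact hs
  have h2 : C (Grp R S) := fin_mem hC hR _ S hS rfl fun σ hσ hcl =>
    h σ (hS.subset hσ) (hσ.trans hST) hcl
  refine hC.base.of_injective _ _ ((MonoidHom.ofInjective (emb_injective hR hST)).symm.toMonoidHom.comp
    (Subgroup.inclusion h1)) ?_ h2
  exact (MonoidHom.ofInjective (emb_injective hR hST)).symm.injective.comp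
    (Subgroup.inclusion_injective h1)

end Pool.Agent.U38.LR
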