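import Pool.Agent.U38.LR.Act

/-!
# Semidirect products with invariant presentations which are closed under deletion
-/

set_option autoImplicit false

namespace Pool.Agent.U38.LR

open Pool.Agent.Y110.FJ (ClosedE Amg)

variable {V I : Type} {R : Set (FreeGroup (V × I))}

namespace St

variable {σ : Equiv.Perm V} (S : St σ)

theorem comm (a b : ℤ) (v : V) : (σ ^ a) ((σ ^ b) v) = (σ ^ b) ((σ ^ a) v) := by
  rw [← Equiv.Perm.mul_apply, ← Equiv.Perm.mul_apply, ← zpow_add, ← zpow_add, add_comm]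

/-- the permutation of the classes -/
def sb : Equiv.Perm S.Vm where
  toFun := Quotient.map (σ ^ (1 : ℤ) : Equiv.Perm V) (by
    rintro v w ⟨j, rfl⟩
    exact ⟨j, comm _ _ _⟩)
  invFun := Quotient.map (σ ^ (-1 : ℤ) : Equiv.Perm V) (by
    rintro v w ⟨j, rfl⟩
    exact ⟨j, comm _ _ _⟩)
  left_inv := by
    rintro ⟨v⟩
    show Quotient.mk _ ((σ ^ (-1 : ℤ)) ((σ ^ (1 : ℤ)) v)) = Quotient.mk _ v
    rw [← Equiv.Perm.mul_apply, ← zpow_add]
    norm_num
  right_inv := by
    rintro ⟨v⟩
    show Quotient.mk _ ((σ ^ (1 : ℤ)) ((σ ^ (-1 : ℤ)) v)) = Quotient.mk _ v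
    rw [← Equiv.Perm.mul_apply, ← zpow_add]
    norm_num

theorem sb_q (v : V) : S.sb (S.q v) = S.q (σ v) := by
  show Quotient.mk _ ((σ ^ (1 : ℤ)) v) = Quotient.mk _ (σ v)
  rw [zpow_one]

theorem sb_pow (j : ℕ) (v : V) : (S.sb ^ j) (S.q v) = S.q ((σ ^ j) v) := by
  induction j with
  | zero => simp
  | succ j ih =>
    rw [pow_succ', Equiv.Perm.mul_apply, ih, sb_q, pow_succ', Equiv.Perm.mul_apply]

theorem sb_zpow (j : ℤ) (v : V) : (S.sb ^ j) (S.q v) = S.q ((σ ^ j) v) := by
  obtain ⟨n, rfl | rfl⟩ := Int.eq_nat_or_neg j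
  · rw [zpow_natCast, zpow_natCast, sb_pow]
  · rw [zpow_neg, zpow_neg, zpow_natCast, zpow_natCast, Equiv.Perm.inv_eq_iff_eq, sb_pow,
      ← Equiv.Perm.mul_apply, mul_inv_cancel, Equiv.Perm.one_apply]

theorem sb_m : S.sb ^ S.m.toNat = 1 := by
  ext c
  obtain ⟨v, rfl⟩ := S.q_surj c
  rw [sb_pow, Equiv.Perm.one_apply]
  refine S.q_eq.2 ⟨-1, ?_⟩
  have h1 : 0 ≤ S.m := by linarith [S.hm, S.hD]
  rw [← zpow_natCast, Int.toNat_of_nonneg h1, ← Equiv.Perm.mul_apply, ← zpow_add]
  have h2 : S.m * -1 + S.m = 0 := by ring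
  rw [h2, zpow_zero, Equiv.Perm.one_apply]

variable (hinv : ∀ (j : ℤ), ∀ r ∈ R, mp (σ ^ j : Equiv.Perm V) r ∈ R)

include hinv in
theorem sb_inv : Inv (Subgroup.zpowers S.sb) (RS (S.Rm R) (S.q '' S.U)) := by
  rintro ⟨_, j, rfl⟩ r hr
  show mp (fun v => (S.sb ^ j) v) r ∈ _
  rcases hr with ⟨r, ⟨hr, i, hi⟩, rfl⟩ | ⟨x, hx, rfl⟩
  · refine Or.inl ⟨mp (σ ^ j : Equiv.Perm V) r, ⟨hinv j r hr, i + j, ?_⟩, ?_⟩
    · rw [del_mp]
      have h1 : ((σ ^ j : Equiv.Perm V) : V → V) ⁻¹' S.W (i + j) = S.W i := by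
        ext v
        exact S.W_shift j
      rw [h1, hi]
    · rw [mp_mp, mp_mp]
      congr 2
      ext v
      exact (S.sb_zpow j v).symm
  · refine Or.inr ⟨((S.sb ^ j) x.1, x.2), ?_, by rw [mp_of]⟩
    rintro ⟨u, hu, hux⟩
    apply hx
    obtain ⟨v, hv⟩ := S.q_surj x.1
    refine ⟨v, ?_, hv⟩
    rw [← hv, S.sb_zpow] at hux
    exact (S.hU v j).1 ((S.q_U hux).1 hu)

/-- the automorphism -/
noncomputable def al : MulAut (Grp (S.Rm R) (S.q '' S.U)) :=
  act (S.sb_inv hinv) ⟨S.sb, Subgroup.mem_zpowers _⟩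

theorem al_of (x : S.Vm × I) :
    S.al hinv (PresentedGroup.of x) = PresentedGroup.of (S.sb x.1, x.2) :=
  act_of _ _ _

theorem al_m : S.al hinv ^ S.m.toNat = 1 := by
  rw [al, ← map_pow]
  have h1 : (⟨S.sb, Subgroup.mem_zpowers _⟩ : Subgroup.zpowers S.sb) ^ S.m.toNat = 1 := by
    apply Subtype.ext
    exact S.sb_m
  rw [h1, map_one]

end St

variable {C : ∀ (G : Type) [Group G], Prop}

/-- a permutation which preserves the relators is realized, on a finite set of vertices, by an
automorphism of finite order of a group in the class -/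
theorem local_real (hC : ClosedE C) (hR : DelClosed R)
    (h : ∀ τ : Set V, τ.Finite → Clique R τ → C (Grp R τ)) (σ : Equiv.Perm V)
    (hinv : ∀ (j : ℤ), ∀ r ∈ R, mp (σ ^ j : Equiv.Perm V) r ∈ R) (F : Set V) (hF : F.Finite) :
    ∃ (P : Type) (_ : Group P) (e : PresentedGroup R →* P) (α : MulAut P) (k : ℕ),
      C P ∧ 0 < k ∧ α ^ k = 1 ∧ (∀ y ∈ (emb' hR F).range, e y = 1 → y = 1) ∧
      ∀ x : V × I, x.1 ∈ F → σ x.1 ∈ F →
        e (PresentedGroup.of (σ x.1, x.2)) = α (e (PresentedGroup.of x)) := by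
  classical
  obtain ⟨S, i0, hW⟩ := exists_St σ F hF
  have hm0 : 0 < S.m := by linarith [S.hm, S.hD]
  let P := Grp (S.Rm R) (S.q '' S.U)
  let f : V × I → P := fun x => if x.1 ∈ F then PresentedGroup.of (S.q x.1, x.2) else 1
  have hf : ∀ r ∈ R, FreeGroup.lift f r = 1 := by
    refine key hR F (FreeGroup.lift f) (fun x hx => ?_) (fun r hr hrF => ?_)
    · rw [FreeGroup.lift_apply_of]
      exact if_neg hx
    · rw [hom_ext (g := (pj (S.Rm R) (S.q '' S.U)).comp (mp S.q)) F (fun x hx => ?_) r hrF]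
      · rw [MonoidHom.comp_apply, S.pj_short hr (del_mono hW hrF)]
      · rw [FreeGroup.lift_apply_of, MonoidHom.comp_apply, mp_of, pj_of]
        exact if_pos hx
  let e : PresentedGroup R →* P := PresentedGroup.toGroup hf
  have he : ∀ x : V × I, x.1 ∈ F → e (PresentedGroup.of x) = PresentedGroup.of (S.q x.1, x.2) := by
    intro x hx
    rw [PresentedGroup.toGroup.of]
    exact if_pos hx
  refine ⟨P, inferInstance, e, S.al hinv, S.m.toNat, S.wrap_mem hinv hC hR h, by omega,
    S.al_m hinv, ?_, ?_⟩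
  · rintro _ ⟨z, rfl⟩ hz
    have hA : ∀ c ∈ S.q '' F, ∃ v, v ∈ F ∧ S.q v = c := fun c hc => by
      obtain ⟨v, hv, hvc⟩ := hc
      exact ⟨v, hv, hvc⟩
    choose l' hl' using hA
    let l : S.Vm → V := fun c => if hc : c ∈ S.q '' F then l' c hc else c.out
    have hl : ∀ c ∈ S.q '' F, l c ∈ F ∧ S.q (l c) = c := by
      intro c hc
      have h1 : l c = l' c hc := dif_pos hc
      rw [h1]
      exact hl' c hc
    have hlF : ∀ v ∈ F, l (S.q v) = v := by
      intro v hv
      have h1 := hl (S.q v) ⟨v, hv, rfl⟩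
      exact S.inj_W (hW h1.1) (hW hv) h1.2
    have hsub : S.q '' F ⊆ S.q '' S.U := Set.image_mono fun v hv => (hW hv).1
    have h1 : ((emb' hR (l '' (S.q '' F))).comp ((S.phi hinv hR (A := S.q '' F) (l := l) (i0 := i0)
        (fun c hc => (hl c hc).2) (fun c hc => hW (hl c hc).1)).comp
        (ret (S.Rm R) hsub))).comp (e.comp (emb' hR F)) = emb' hR F := by
      refine grp_ext fun x hx => ?_
      have g1 : (e.comp (emb' hR F)) (PresentedGroup.of x) = PresentedGroup.of (S.q x.1, x.2) := by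
        rw [MonoidHom.comp_apply, emb'_of hR hx, he x hx]
      have g2 := S.phi_of hinv hR (A := S.q '' F) (l := l) (i0 := i0)
        (fun c hc => (hl c hc).2) (fun c hc => hW (hl c hc).1) (x := (S.q x.1, x.2)) ⟨x.1, hx, rfl⟩
      have g3 : l (S.q x.1) ∈ l '' (S.q '' F) := ⟨_, ⟨x.1, hx, rfl⟩, rfl⟩
      rw [MonoidHom.comp_apply, g1, MonoidHom.comp_apply, MonoidHom.comp_apply, ret_of, g2,
        emb'_of hR (x := (l (S.q x.1), x.2)) g3, emb'_of hR hx]
      show PresentedGroup.of (l (S.q x.1), x.2) = _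
      rw [hlF x.1 hx]
    have h2 := DFunLike.congr_fun h1 z
    rw [← h2, MonoidHom.comp_apply, MonoidHom.comp_apply e, hz, map_one]
  · intro x hx hx'
    rw [he x hx, he (σ x.1, x.2) hx', S.al_of]
    show PresentedGroup.of (S.q (σ x.1), x.2) = PresentedGroup.of (S.sb (S.q x.1), x.2)
    rw [S.sb_q]

variable {Γ : Type} [Group Γ] [MulAction Γ V]

theorem act_range (hR : DelClosed R) (hinv : Inv Γ R) (γ : Γ) {F F' : Set V}
    (h : ∀ v ∈ F, γ • v ∈ F') {y : PresentedGroup R} (hy : y ∈ (emb' hR F).range) :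
    act hinv γ y ∈ (emb' hR F').range := by
  obtain ⟨z, rfl⟩ := hy
  have h1 : ((act hinv γ : MulAut (PresentedGroup R)).toMonoidHom.comp (emb' hR F)).range ≤
      (emb' hR F').range := by
    rw [MonoidHom.range_eq_map, ← PresentedGroup.closure_range_of, MonoidHom.map_closure,
      Subgroup.closure_le]
    rintro _ ⟨_, ⟨x, rfl⟩, rfl⟩
    by_cases hx : x.1 ∈ F
    · refine ⟨PresentedGroup.of (γ • x.1, x.2), ?_⟩
      rw [emb'_of hR (x := (γ • x.1, x.2)) (h _ hx), MonoidHom.comp_apply, emb'_of hR hx]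
      exact (act_of hinv γ x).symm
    · rw [pj_kill hx, map_one]
      exact one_mem _
  exact h1 ⟨z, rfl⟩

/-- **semidirect products** -/
theorem sd_mem (hC : ClosedE C) (hR : DelClosed R) (hinv : Inv Γ R) (hΓ : C Γ)
    (h : ∀ τ : Set V, τ.Finite → Clique R τ → C (Grp R τ)) :
    C (PresentedGroup R ⋊[act hinv] Γ) := by
  refine Q30.FJ.crit_loc hC (PresentedGroup R ⋊[act hinv] Γ)
    (SemidirectProduct.rightHom : PresentedGroup R ⋊[act hinv] Γ →* Γ).ker ?_ ?_
  · exact hC.base.of_injective _ Γ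
      (QuotientGroup.quotientKerEquivOfSurjective _
        (SemidirectProduct.rightHom_surjective)).toMonoidHom
      (QuotientGroup.quotientKerEquivOfSurjective _
        (SemidirectProduct.rightHom_surjective)).injective hΓ
  · intro g E hE hEN
    obtain ⟨F0, hF0, hL⟩ := exists_fin_all' hR
      ((fun x : PresentedGroup R ⋊[act hinv] Γ => x.left) '' E ∪ {g.left})
      ((hE.image _).union (Set.finite_singleton _))
    have hinv' : ∀ (j : ℤ), ∀ r ∈ R, mp ((MulAction.toPerm g.right : Equiv.Perm V) ^ j :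
        Equiv.Perm V) r ∈ R := by
      intro j r hr
      have h1 : ((MulAction.toPerm g.right : Equiv.Perm V) ^ j : Equiv.Perm V) =
          MulAction.toPerm (g.right ^ j) :=
        (map_zpow (MulAction.toPermHom Γ V) g.right j).symm
      rw [h1]
      exact hinv _ r hr
    obtain ⟨P, _, e, α, k, hP, hk, hα, he, heα⟩ := local_real hC hR h
      (MulAction.toPerm g.right : Equiv.Perm V) hinv' (F0 ∪ (fun v => g.right • v) '' F0)
      (hF0.union (hF0.image _))
    have hsub : F0 ⊆ F0 ∪ (fun v => g.right • v) '' F0 := Set.subset_union_left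
    -- `e` is equivariant on the part generated by the vertices in `F0`
    have heq : ∀ y ∈ (emb' hR F0).range, e (act hinv g.right y) = α (e y) := by
      rintro _ ⟨z, rfl⟩
      have h1 : (e.comp (act hinv g.right : MulAut (PresentedGroup R)).toMonoidHom).comp
          (emb' hR F0) = ((α : MulAut P).toMonoidHom.comp e).comp (emb' hR F0) := by
        refine grp_ext fun x hx => ?_
        rw [MonoidHom.comp_apply, MonoidHom.comp_apply, MonoidHom.comp_apply _ (emb' hR F0),
          emb'_of hR hx]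
        show e (act hinv g.right (PresentedGroup.of x)) = α (e (PresentedGroup.of x))
        rw [act_of]
        exact heα x (hsub hx) (Or.inr ⟨x.1, hx, rfl⟩)
      exact DFunLike.congr_fun h1 z
    have hpow : ∀ j : ℕ, ∃ p : P, (MulAut.conj (e g.left) * α) ^ j = MulAut.conj p * α ^ j := by
      intro j
      induction j with
      | zero => exact ⟨1, by simp⟩
      | succ j ih =>
        obtain ⟨p, hp⟩ := ih
        refine ⟨p * (α ^ j) (e g.left), ?_⟩
        rw [pow_succ, hp, pow_succ]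
        ext y
        simp [MulAut.mul_apply, MulAut.conj_apply, mul_assoc]
    obtain ⟨p, hp⟩ := hpow k
    rw [hα, mul_one] at hp
    have hEr : ∀ x ∈ E, x.right = 1 := fun x hx => hEN hx
    have hEl : ∀ x ∈ E, x.left ∈ (emb' hR F0).range := fun x hx => hL (Or.inl ⟨x, hx, rfl⟩)
    have hgl : g.left ∈ (emb' hR F0).range := hL (Or.inr rfl)
    have hconj : ∀ x : PresentedGroup R ⋊[act hinv] Γ, x.right = 1 →
        (g * x * g⁻¹).left = g.left * act hinv g.right x.left * g.left⁻¹ ∧
        (g * x * g⁻¹).right = 1 := by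
      intro x hx
      constructor
      · simp only [SemidirectProduct.mul_left, SemidirectProduct.mul_right,
          SemidirectProduct.inv_left, hx, mul_one]
        have h5 : (act hinv g.right) ((act hinv g.right⁻¹) g.left⁻¹) = g.left⁻¹ := by
          rw [← MulAut.mul_apply, ← map_mul, mul_inv_cancel, map_one]
          rfl
        rw [h5]
      · simp [SemidirectProduct.mul_right, hx]
    have hle : Subgroup.closure (E ∪ (fun x => g * x * g⁻¹) '' E) ≤
        (emb' hR (F0 ∪ (fun v => g.right • v) '' F0)).range.map SemidirectProduct.inl := by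
      rw [Subgroup.closure_le]
      rintro x (hx | ⟨y, hy, rfl⟩)
      · refine ⟨x.left, range_mono' hR hsub (hEl x hx), ?_⟩
        apply SemidirectProduct.ext
        · rw [SemidirectProduct.left_inl]
        · rw [SemidirectProduct.right_inl, hEr x hx]
      · refine ⟨(g * y * g⁻¹).left, ?_, ?_⟩
        · rw [(hconj y (hEr y hy)).1]
          have h6 := act_range hR hinv g.right (F := F0)
            (F' := F0 ∪ (fun v => g.right • v) '' F0) (fun v hv => Or.inr ⟨v, hv, rfl⟩) (hEl y hy)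
          exact mul_mem (mul_mem (range_mono' hR hsub hgl) h6)
            (inv_mem (range_mono' hR hsub hgl))
        · apply SemidirectProduct.ext
          · rw [SemidirectProduct.left_inl]
          · rw [SemidirectProduct.right_inl, (hconj y (hEr y hy)).2]
    have hr : ∀ x : ↥(Subgroup.closure (E ∪ (fun x => g * x * g⁻¹) '' E)),
        (x : PresentedGroup R ⋊[act hinv] Γ).right = 1 ∧
        (x : PresentedGroup R ⋊[act hinv] Γ).left ∈
          (emb' hR (F0 ∪ (fun v => g.right • v) '' F0)).range := by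
      intro x
      obtain ⟨z, hz, hzx⟩ := hle x.2
      rw [← hzx]
      exact ⟨SemidirectProduct.right_inl _, by rw [SemidirectProduct.left_inl]; exact hz⟩
    refine ⟨P, inferInstance, MonoidHom.mk' (fun x => e (x : PresentedGroup R ⋊[act hinv] Γ).left)
      ?_, MulAut.conj (e g.left) * α, k, p, hP, ?_, hk, hp, ?_⟩
    · intro x y
      show e (((x : PresentedGroup R ⋊[act hinv] Γ) * (y : PresentedGroup R ⋊[act hinv] Γ)).left)
        = _
      rw [SemidirectProduct.mul_left, (hr x).1, map_one, MulAut.one_apply, map_mul]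
    · rw [injective_iff_map_eq_one]
      intro x hx
      apply Subtype.ext
      apply SemidirectProduct.ext
      · exact he _ (hr x).2 hx
      · exact (hr x).1
    · intro x y hx hy
      show e (y : PresentedGroup R ⋊[act hinv] Γ).left =
        (MulAut.conj (e g.left) * α) (e (x : PresentedGroup R ⋊[act hinv] Γ).left)
      rw [hy, (hconj x (hr x).1).1, map_mul, map_mul, map_inv, MulAut.mul_apply, MulAut.conj_apply,
        heq _ (hEl x hx)]

/-- **the criterion** -/
theorem sd_iff (hC : ClosedE C) (hR : DelClosed R) (hinv : Inv Γ R) :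
    C (PresentedGroup R ⋊[act hinv] Γ) ↔
      C Γ ∧ ∀ τ : Set V, τ.Finite → Clique R τ → C (Grp R τ) := by
  constructor
  · intro h
    refine ⟨hC.base.of_injective _ _ SemidirectProduct.inr SemidirectProduct.inr_injective h,
      fun τ _ _ => ?_⟩
    exact hC.base.of_injective _ _ (SemidirectProduct.inl.comp (emb' hR τ))
      (SemidirectProduct.inl_injective.comp (emb'_injective hR τ)) h
  · rintro ⟨hΓ, h⟩
    exact sd_mem hC hR hinv hΓ h

end Pool.Agent.U38.LR
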