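import Pool.Agent.U38.LR.Wrap

/-!
# Cliques of the wrapped presentation come from cliques
-/

set_option autoImplicit false

namespace Pool.Agent.U38.LR

open Pool.Agent.Y110.FJ (ClosedE Amg)

variable {V I : Type} {R : Set (FreeGroup (V × I))}

theorem linked_mp {f : V → V} (hf : Function.Injective f) (hR : ∀ r ∈ R, mp f r ∈ R) {u v : V}
    (h : Linked R u v) : Linked R (f u) (f v) := by
  obtain ⟨r, hr, h1, h2⟩ := h
  have hinj : Function.Injective (mp f : FreeGroup (V × I) →* _) :=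
    FreeGroup.map_injective (hf.prodMap Function.injective_id)
  have h3 : ∀ w : V, f ⁻¹' {f w}ᶜ = {w}ᶜ := by
    intro w
    ext x
    simp [hf.eq_iff]
  refine ⟨_, hR r hr, ?_, ?_⟩
  · rw [del_mp, h3]
    exact fun h => h1 (hinj h)
  · rw [del_mp, h3]
    exact fun h => h2 (hinj h)

namespace St

variable {σ : Equiv.Perm V} (S : St σ)

theorem linked_aux {i : ℤ} {r : FreeGroup (V × I)} (hi : del (S.W i) r = r) {c : S.Vm}
    (h : del {c}ᶜ (mp S.q r) ≠ mp S.q r) : ∃ v ∈ S.W i, S.q v = c ∧ del {v}ᶜ r ≠ r := by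
  rw [del_mp] at h
  have h1 : del (S.q ⁻¹' {c}ᶜ) r ≠ r := fun h' => h (by rw [h'])
  have h2 : ∃ v ∈ S.W i, S.q v = c := by
    by_contra hne
    push Not at hne
    exact h1 (del_mono (fun v hv => hne v hv) hi)
  obtain ⟨v, hv, hvc⟩ := h2
  refine ⟨v, hv, hvc, fun h' => h1 ?_⟩
  have h3 : del ({v}ᶜ ∩ S.W i) r = r := by rw [← del_del, hi, h']
  refine del_mono ?_ h3
  rintro w ⟨hw, hwi⟩ hwc
  exact hw (S.inj_W hwi hv (Eq.trans hwc hvc.symm))

theorem linked_lift {c c' : S.Vm} (h : Linked (S.Rm R) c c') :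
    ∃ i : ℤ, ∃ v ∈ S.W i, ∃ v' ∈ S.W i, S.q v = c ∧ S.q v' = c' ∧ Linked R v v' := by
  obtain ⟨_, ⟨r, ⟨hr, i, hi⟩, rfl⟩, h1, h2⟩ := h
  obtain ⟨v, hv, hvc, h3⟩ := S.linked_aux hi h1
  obtain ⟨v', hv', hvc', h4⟩ := S.linked_aux hi h2
  exact ⟨i, v, hv, v', hv', hvc, hvc', r, hr, h3, h4⟩

variable (hinv : ∀ (j : ℤ), ∀ r ∈ R, mp (σ ^ j : Equiv.Perm V) r ∈ R)

/-- two points of a window -/
theorem W_near {i : ℤ} {v v' : V} (h : v ∈ S.W i) (h' : v' ∈ S.W i) :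
    v ∈ S.U ∧ v' ∈ S.U ∧ (¬ S.fin v → ¬ S.fin v' → |S.t v - S.t v'| ≤ S.D) := by
  refine ⟨h.1, h'.1, fun hf hf' => ?_⟩
  have h1 := h.2.resolve_left hf
  have h2 := h'.2.resolve_left hf'
  rw [abs_le]
  constructor <;> linarith

/-- sections -/
theorem exists_section {A : Set S.Vm} (hA : A ⊆ S.q '' S.U) (hcl : Clique (S.Rm R) A) :
    ∃ (l : S.Vm → V) (τ : ℤ), ∀ c ∈ A, S.q (l c) = c ∧ l c ∈ S.U ∧
      (¬ S.fin (l c) → |S.t (l c) - τ| ≤ S.D) := by
  classical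
  rcases isEmpty_or_nonempty V with hV | hV
  · exact ⟨fun c => c.out, 0, fun c => hV.elim c.out⟩
  by_cases hex : ∃ c0 ∈ A, ∃ v0, S.q v0 = c0 ∧ ¬ S.fin v0
  · obtain ⟨c0, hc0, v0, hv0, hf⟩ := hex
    have hv0U : v0 ∈ S.U := by
      obtain ⟨w, hw, hwc⟩ := hA hc0
      exact (S.q_U (hwc.trans hv0.symm)).1 hw
    have h1 : ∀ c ∈ A, ∃ v, S.q v = c ∧ v ∈ S.U ∧ (¬ S.fin v → |S.t v - S.t v0| ≤ S.D) := by
      intro c hc
      by_cases hcc : c0 = c
      · refine ⟨v0, hv0.trans hcc, hv0U, fun _ => ?_⟩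
        rw [sub_self, abs_zero]
        exact S.hD
      · obtain ⟨i, v, hv, v', hv', hvc, hvc', -⟩ := S.linked_lift (hcl c0 hc0 c hc hcc)
        obtain ⟨j, hj⟩ := S.q_eq.1 (hvc.trans hv0.symm)
        have h2 : (σ ^ (S.m * j)) v ∈ S.W (i + S.m * j) := (S.W_shift _).2 hv
        have h3 : (σ ^ (S.m * j)) v' ∈ S.W (i + S.m * j) := (S.W_shift _).2 hv'
        rw [hj] at h2
        obtain ⟨-, h4, h5⟩ := S.W_near h2 h3
        refine ⟨(σ ^ (S.m * j)) v', ?_, h4, fun hf' => ?_⟩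
        · rw [← hvc']
          exact (S.q_eq.2 ⟨j, rfl⟩).symm
        · rw [abs_sub_comm]
          exact h5 hf hf'
    choose! l hl using h1
    exact ⟨l, S.t v0, hl⟩
  · push Not at hex
    have h1 : ∀ c ∈ A, ∃ v, v ∈ S.U ∧ S.q v = c := fun c hc => by
      obtain ⟨w, hw, hwc⟩ := hA hc
      exact ⟨w, hw, hwc⟩
    choose! l hl using h1
    refine ⟨l, 0, fun c hc => ⟨(hl c hc).2, (hl c hc).1, fun h => ?_⟩⟩
    exact absurd (hex c hc _ (hl c hc).2) h

include hinv in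
/-- the values of a section on a clique are linked, and near -/
theorem section_linked {A : Set S.Vm} (hcl : Clique (S.Rm R) A) {l : S.Vm → V} {τ : ℤ}
    (hl : ∀ c ∈ A, S.q (l c) = c ∧ l c ∈ S.U ∧ (¬ S.fin (l c) → |S.t (l c) - τ| ≤ S.D))
    {c c' : S.Vm} (hc : c ∈ A) (hc' : c' ∈ A) (hne : c ≠ c') :
    Linked R (l c) (l c') ∧ (¬ S.fin (l c) → ¬ S.fin (l c') → |S.t (l c) - S.t (l c')| ≤ S.D) := by
  obtain ⟨i, v, hv, v', hv', hvc, hvc', hlk⟩ := S.linked_lift (hcl c hc c' hc' hne)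
  obtain ⟨j, hj⟩ := S.q_eq.1 (hvc.trans (hl c hc).1.symm)
  obtain ⟨j', hj'⟩ := S.q_eq.1 (hvc'.trans (hl c' hc').1.symm)
  -- one translation
  obtain ⟨k, hk, hk'⟩ : ∃ k : ℤ, (σ ^ (S.m * k)) v = l c ∧ (σ ^ (S.m * k)) v' = l c' := by
    by_cases hf : S.fin v
    · refine ⟨j', ?_, hj'⟩
      rw [← hj, S.fix hv.1 hf, S.fix hv.1 hf]
    · by_cases hf' : S.fin v'
      · refine ⟨j, hj, ?_⟩
        rw [← hj', S.fix hv'.1 hf', S.fix hv'.1 hf']
      · have e1 := S.ht v hf (S.m * j)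
        have e2 := S.ht v' hf' (S.m * j')
        rw [hj] at e1
        rw [hj'] at e2
        have g1 : ¬ S.fin (l c) := by rw [← hj, S.hfin]; exact hf
        have g2 : ¬ S.fin (l c') := by rw [← hj', S.hfin]; exact hf'
        have h1 := abs_le.1 ((hl c hc).2.2 g1)
        have h2 := abs_le.1 ((hl c' hc').2.2 g2)
        have h3 := abs_le.1 ((S.W_near hv hv').2.2 hf hf')
        have h4 := S.hm
        have h5 : j - j' = 0 := by
          refine zero_of_lt (m := S.m) ?_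
          rw [mul_sub, abs_lt]
          constructor <;> linarith
        have h6 : j = j' := by omega
        exact ⟨j, hj, by rw [h6, hj']⟩
  have h2 : (σ ^ (S.m * k)) v ∈ S.W (i + S.m * k) := (S.W_shift _).2 hv
  have h3 : (σ ^ (S.m * k)) v' ∈ S.W (i + S.m * k) := (S.W_shift _).2 hv'
  rw [hk] at h2
  rw [hk'] at h3
  refine ⟨?_, (S.W_near h2 h3).2.2⟩
  rw [← hk, ← hk']
  exact linked_mp (Equiv.injective _) (hinv _) hlk

include hinv in
/-- **finite cliques of the wrapped presentation** -/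
theorem clique_lift {A : Set S.Vm} (hfA : A.Finite) (hA : A ⊆ S.q '' S.U)
    (hcl : Clique (S.Rm R) A) :
    ∃ (l : S.Vm → V) (i0 : ℤ), (∀ c ∈ A, S.q (l c) = c) ∧ (∀ c ∈ A, l c ∈ S.W i0) ∧
      Clique R (l '' A) := by
  obtain ⟨l, τ, hl⟩ := S.exists_section hA hcl
  have hcl' : Clique R (l '' A) := by
    rintro _ ⟨c, hc, rfl⟩ _ ⟨c', hc', rfl⟩ hne
    exact (S.section_linked hinv hcl hl hc hc' fun h => hne (by rw [h])).1
  by_cases hex : {c | c ∈ A ∧ ¬ S.fin (l c)}.Nonempty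
  · obtain ⟨c0, hc0, hmin⟩ := Set.exists_min_image {c | c ∈ A ∧ ¬ S.fin (l c)}
      (fun c => S.t (l c)) (hfA.subset fun c hc => hc.1) hex
    refine ⟨l, S.t (l c0), fun c hc => (hl c hc).1, fun c hc => ⟨(hl c hc).2.1, ?_⟩, hcl'⟩
    by_cases hf : S.fin (l c)
    · exact Or.inl hf
    · refine Or.inr ⟨hmin c ⟨hc, hf⟩, ?_⟩
      by_cases hcc : c = c0
      · rw [hcc]
        linarith [S.hD]
      · have h1 := abs_le.1 ((S.section_linked hinv hcl hl hc hc0.1 hcc).2 hf hc0.2)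
        linarith [h1.2]
  · refine ⟨l, 0, fun c hc => (hl c hc).1, fun c hc => ⟨(hl c hc).2.1, ?_⟩, hcl'⟩
    left
    by_contra hf
    exact hex ⟨c, hc, hf⟩

variable {C : ∀ (G : Type) [Group G], Prop}

include hinv in
/-- the wrapped group is in the class -/
theorem wrap_mem (hC : ClosedE C) (hR : DelClosed R)
    (h : ∀ τ : Set V, τ.Finite → Clique R τ → C (Grp R τ)) : C (Grp (S.Rm R) (S.q '' S.U)) := by
  refine all_mem hC (S.delClosed hR) _ fun A hfA hA hcl => ?_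
  obtain ⟨l, i0, hl, hW, hcl'⟩ := S.clique_lift hinv hfA hA hcl
  exact hC.base.of_injective _ _ (S.phi hinv hR hl hW) (S.phi_injective hinv hR hl hW)
    (h _ (hfA.image l) hcl')

end St

/-- existence of the data -/
theorem exists_St (σ : Equiv.Perm V) (F : Set V) (hF : F.Finite) :
    ∃ (S : St σ) (i0 : ℤ), F ⊆ S.W i0 := by
  classical
  obtain ⟨t, ht⟩ := exists_time σ
  -- a bound of the times
  obtain ⟨B, hB0, hB⟩ : ∃ B : ℤ, 0 ≤ B ∧ ∀ v ∈ F, |t v| ≤ B := by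
    induction F, hF using Set.Finite.induction_on with
    | empty => exact ⟨0, le_rfl, fun v hv => absurd hv (Set.notMem_empty v)⟩
    | insert _ _ ih =>
      rename_i w F _ _
      obtain ⟨B, hB0, hB⟩ := ih
      refine ⟨max B |t w|, le_max_of_le_left hB0, ?_⟩
      rintro v (rfl | hv)
      · exact le_max_right _ _
      · exact (hB v hv).trans (le_max_left _ _)
  -- a common period
  obtain ⟨M, hM0, hM⟩ : ∃ M : ℕ, 0 < M ∧ ∀ v ∈ F, (∃ n : ℕ, 0 < n ∧ (σ ^ n) v = v) →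
      (σ ^ M) v = v := by
    induction F, hF using Set.Finite.induction_on with
    | empty => exact ⟨1, one_pos, fun v hv => absurd hv (Set.notMem_empty v)⟩
    | insert _ _ ih =>
      rename_i w F _ _
      obtain ⟨M, hM0, hM⟩ := ih (fun v hv => hB v (Or.inr hv))
      by_cases hw : ∃ n : ℕ, 0 < n ∧ (σ ^ n) w = w
      · obtain ⟨n, hn, hnw⟩ := hw
        refine ⟨M * n, Nat.mul_pos hM0 hn, ?_⟩
        rintro v (rfl | hv) hv'
        · rw [mul_comm, pow_mul]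
          exact Equiv.Perm.pow_apply_eq_self_of_apply_eq_self hnw M
        · rw [pow_mul]
          exact Equiv.Perm.pow_apply_eq_self_of_apply_eq_self (hM v hv hv') n
      · refine ⟨M, hM0, ?_⟩
        rintro v (rfl | hv) hv'
        · exact absurd hv' hw
        · exact hM v hv hv'
  have hcomm : ∀ (v : V) (a b : ℤ), (σ ^ a) ((σ ^ b) v) = (σ ^ b) ((σ ^ a) v) := by
    intro v a b
    rw [← Equiv.Perm.mul_apply, ← Equiv.Perm.mul_apply, ← zpow_add, ← zpow_add, add_comm]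
  have hfinj : ∀ (v : V) (j : ℤ), (∃ n : ℕ, 0 < n ∧ (σ ^ n) v = v) →
      ∃ n : ℕ, 0 < n ∧ (σ ^ n) ((σ ^ j) v) = (σ ^ j) v := by
    rintro v j ⟨n, hn, h⟩
    refine ⟨n, hn, ?_⟩
    rw [← zpow_natCast, hcomm, zpow_natCast, h]
  refine ⟨{
    fin := fun v => ∃ n : ℕ, 0 < n ∧ (σ ^ n) v = v
    t := t
    U := {v | ∃ w ∈ F, ∃ j : ℤ, (σ ^ j) w = v}
    D := 2 * B
    m := M * (6 * B + 1)
    hfin := ?_
    ht := ht
    hU := ?_
    hper := ?_
    hm := ?_
    hD := by linarith }, -B, ?_⟩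
  · intro v j
    constructor
    · intro h
      have h1 := hfinj _ (-j) h
      rwa [← Equiv.Perm.mul_apply, ← zpow_add, neg_add_cancel, zpow_zero,
        Equiv.Perm.one_apply] at h1
    · exact hfinj v j
  · intro v j
    constructor
    · rintro ⟨w, hw, k, hk⟩
      refine ⟨w, hw, -j + k, ?_⟩
      rw [zpow_add, Equiv.Perm.mul_apply, hk, ← Equiv.Perm.mul_apply, ← zpow_add, neg_add_cancel,
        zpow_zero, Equiv.Perm.one_apply]
    · rintro ⟨w, hw, k, hk⟩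
      refine ⟨w, hw, j + k, ?_⟩
      rw [zpow_add, Equiv.Perm.mul_apply, hk]
  · rintro v ⟨w, hw, j, rfl⟩ hf
    have h1 := hfinj _ (-j) hf
    rw [← Equiv.Perm.mul_apply, ← zpow_add, neg_add_cancel, zpow_zero, Equiv.Perm.one_apply] at h1
    have h2 := hM w hw h1
    rw [hcomm]
    congr 1
    rw [zpow_mul]
    refine Equiv.Perm.zpow_apply_eq_self_of_apply_eq_self ?_ _
    rw [zpow_natCast, h2]
  · have h1 : (1 : ℤ) ≤ M := by exact_mod_cast hM0
    nlinarith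
  · intro v hv
    refine ⟨⟨v, hv, 0, by simp⟩, Or.inr ?_⟩
    have h1 := abs_le.1 (hB v hv)
    show -B ≤ t v ∧ t v ≤ -B + 2 * B
    exact ⟨h1.1, by linarith [h1.2]⟩

end Pool.Agent.U38.LR
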