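import Pool.Agent.U38.LR.Fin

/-!
# Wrapping up: the vertices modulo a power of a permutation
-/

set_option autoImplicit false

namespace Pool.Agent.U38.LR

variable {V I : Type} {R : Set (FreeGroup (V × I))}

theorem mp_of {W : Type} (f : V → W) (x : V × I) :
    mp f (FreeGroup.of x) = FreeGroup.of (f x.1, x.2) := by
  rw [mp, FreeGroup.map.of]
  rfl

theorem del_mp {W : Type} (f : V → W) (S : Set W) (w : FreeGroup (V × I)) :
    del S (mp f w) = mp f (del (f ⁻¹' S) w) := by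
  have h1 : (del S).comp (mp f) = (mp f).comp (del (f ⁻¹' S) : FreeGroup (V × I) →* _) := by
    ext x
    rw [MonoidHom.comp_apply, MonoidHom.comp_apply, mp_of]
    by_cases hx : f x.1 ∈ S
    · rw [del_of_mem (x := (f x.1, x.2)) hx, del_of_mem (S := f ⁻¹' S) hx, mp_of]
    · rw [del_of_not_mem (x := (f x.1, x.2)) hx, del_of_not_mem (S := f ⁻¹' S) hx, map_one]
  exact DFunLike.congr_fun h1 w

theorem mp_mp {W X : Type} (f : V → W) (g : W → X) (w : FreeGroup (V × I)) :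
    mp g (mp f w) = mp (g ∘ f) w := by
  have h1 : (mp g).comp (mp f) = (mp (g ∘ f) : FreeGroup (V × I) →* _) := by
    ext x
    rw [MonoidHom.comp_apply, mp_of, mp_of, mp_of]
    rfl
  exact DFunLike.congr_fun h1 w

theorem zero_of_lt {m j : ℤ} (h : |m * j| < m) : j = 0 := by
  have h1 := Int.eq_zero_of_abs_lt_dvd (Dvd.intro j rfl) h
  have h2 : 0 < m := lt_of_le_of_lt (abs_nonneg _) h
  rcases mul_eq_zero.1 h1 with h3 | h3
  · omega
  · exact h3

/-- times of the points of the infinite orbits -/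
theorem exists_time (σ : Equiv.Perm V) : ∃ t : V → ℤ, ∀ v,
    (¬ ∃ n : ℕ, 0 < n ∧ (σ ^ n) v = v) → ∀ j : ℤ, t ((σ ^ j) v) = t v + j := by
  classical
  obtain ⟨rep, hrep, hrep'⟩ : ∃ rep : V → V, (∀ v, σ.SameCycle (rep v) v) ∧
      ∀ v w, σ.SameCycle v w → rep v = rep w := by
    refine ⟨fun v => (Quotient.mk (Equiv.Perm.SameCycle.setoid σ) v).out, fun v => ?_,
      fun v w h => ?_⟩
    · exact Quotient.exact (Quotient.out_eq (Quotient.mk (Equiv.Perm.SameCycle.setoid σ) v))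
    · exact congrArg Quotient.out (Quotient.sound (s := Equiv.Perm.SameCycle.setoid σ) h)
  choose t ht using hrep
  refine ⟨t, fun v hv j => ?_⟩
  have h1 : rep ((σ ^ j) v) = rep v := hrep' _ _ (Equiv.Perm.SameCycle.symm ⟨j, rfl⟩)
  have h2 := ht ((σ ^ j) v)
  rw [h1] at h2
  have h3 := ht v
  by_contra hne
  obtain ⟨k, hk⟩ : ∃ k : ℤ, k = t ((σ ^ j) v) - (t v + j) := ⟨_, rfl⟩
  have hk0 : k ≠ 0 := by omega
  have h4 : (σ ^ k) v = v := by
    have e1 : (σ ^ (-(t v))) v = rep v := by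
      have e0 : (σ ^ (-(t v))) ((σ ^ t v) (rep v)) = rep v := by
        rw [← Equiv.Perm.mul_apply, ← zpow_add, neg_add_cancel, zpow_zero, Equiv.Perm.one_apply]
      rwa [h3] at e0
    rw [← e1, ← Equiv.Perm.mul_apply, ← zpow_add] at h2
    have e2 : (σ ^ (-j)) ((σ ^ (t ((σ ^ j) v) + -(t v))) v) = v := by
      rw [h2, ← Equiv.Perm.mul_apply, ← zpow_add, neg_add_cancel, zpow_zero, Equiv.Perm.one_apply]
    rw [← Equiv.Perm.mul_apply, ← zpow_add] at e2
    rw [hk]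
    convert e2 using 3
    ring
  apply hv
  refine ⟨k.natAbs, Int.natAbs_pos.2 hk0, ?_⟩
  rcases Int.natAbs_eq k with h5 | h5
  · rw [h5, zpow_natCast] at h4
    exact h4
  · rw [h5, zpow_neg, zpow_natCast, Equiv.Perm.inv_eq_iff_eq] at h4
    exact h4.symm

/-- the data for wrapping up -/
structure St (σ : Equiv.Perm V) where
  fin : V → Prop
  t : V → ℤ
  U : Set V
  D : ℤ
  m : ℤ
  hfin : ∀ (v : V) (j : ℤ), fin ((σ ^ j) v) ↔ fin v
  ht : ∀ v, ¬ fin v → ∀ j : ℤ, t ((σ ^ j) v) = t v + j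
  hU : ∀ (v : V) (j : ℤ), (σ ^ j) v ∈ U ↔ v ∈ U
  hper : ∀ v ∈ U, fin v → (σ ^ m) v = v
  hm : 3 * D < m
  hD : 0 ≤ D

namespace St

variable {σ : Equiv.Perm V} (S : St σ)

/-- the windows -/
def W (i : ℤ) : Set V := {v | v ∈ S.U ∧ (S.fin v ∨ (i ≤ S.t v ∧ S.t v ≤ i + S.D))}

/-- equivalence modulo the power `m` -/
def setoid : Setoid V where
  r v w := ∃ j : ℤ, (σ ^ (S.m * j)) v = w
  iseqv := by
    refine ⟨fun v => ⟨0, by simp⟩, ?_, ?_⟩
    · rintro v w ⟨j, rfl⟩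
      refine ⟨-j, ?_⟩
      rw [← Equiv.Perm.mul_apply, ← zpow_add]
      have : S.m * -j + S.m * j = 0 := by ring
      rw [this, zpow_zero, Equiv.Perm.one_apply]
    · rintro v w x ⟨j, rfl⟩ ⟨k, rfl⟩
      refine ⟨k + j, ?_⟩
      rw [← Equiv.Perm.mul_apply, ← zpow_add, mul_add]

/-- the vertices modulo the power `m` -/
abbrev Vm : Type := Quotient S.setoid

/-- the projection -/
def q : V → S.Vm := Quotient.mk _

theorem q_eq {v w : V} : S.q v = S.q w ↔ ∃ j : ℤ, (σ ^ (S.m * j)) v = w :=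
  ⟨fun h => Quotient.exact h, fun h => Quotient.sound h⟩

theorem q_surj (c : S.Vm) : ∃ v, S.q v = c := Quotient.exists_rep c

theorem fix {v : V} (hv : v ∈ S.U) (hf : S.fin v) (j : ℤ) : (σ ^ (S.m * j)) v = v := by
  rw [zpow_mul]
  exact Equiv.Perm.zpow_apply_eq_self_of_apply_eq_self (S.hper v hv hf) j

theorem q_fin {v w : V} (h : S.q v = S.q w) (hv : v ∈ S.U) (hf : S.fin v) : v = w := by
  obtain ⟨j, hj⟩ := S.q_eq.1 h
  rw [← hj, S.fix hv hf]

theorem q_fin_iff {v w : V} (h : S.q v = S.q w) : S.fin v ↔ S.fin w := by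
  obtain ⟨j, hj⟩ := S.q_eq.1 h
  rw [← hj, S.hfin]

theorem q_U {v w : V} (h : S.q v = S.q w) : v ∈ S.U ↔ w ∈ S.U := by
  obtain ⟨j, hj⟩ := S.q_eq.1 h
  rw [← hj, S.hU]

theorem inj_W {i : ℤ} {v w : V} (hv : v ∈ S.W i) (hw : w ∈ S.W i) (h : S.q v = S.q w) : v = w := by
  by_cases hf : S.fin v
  · exact S.q_fin h hv.1 hf
  · have hf' : ¬ S.fin w := fun h' => hf ((S.q_fin_iff h).2 h')
    obtain ⟨j, hj⟩ := S.q_eq.1 h
    have h1 := S.ht v hf (S.m * j)
    rw [hj] at h1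
    have h2 := hv.2.resolve_left hf
    have h3 := hw.2.resolve_left hf'
    have h4 := S.hm
    have h5 := S.hD
    have h6 : j = 0 := zero_of_lt (m := S.m) (by rw [abs_lt]; constructor <;> linarith)
    rw [h6, mul_zero, zpow_zero, Equiv.Perm.one_apply] at hj
    exact hj

theorem W_shift {i : ℤ} {v : V} (j : ℤ) : (σ ^ j) v ∈ S.W (i + j) ↔ v ∈ S.W i := by
  unfold W
  rw [Set.mem_ofPred_eq, Set.mem_ofPred_eq, S.hU, S.hfin]
  by_cases hf : S.fin v
  · simp [hf]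
  · rw [S.ht v hf]
    constructor
    · rintro ⟨h1, h2⟩
      exact ⟨h1, Or.inr ⟨by linarith [(h2.resolve_left hf).1], by linarith [(h2.resolve_left hf).2]⟩⟩
    · rintro ⟨h1, h2⟩
      exact ⟨h1, Or.inr ⟨by linarith [(h2.resolve_left hf).1], by linarith [(h2.resolve_left hf).2]⟩⟩

/-- the short relators -/
def R0 (R : Set (FreeGroup (V × I))) : Set (FreeGroup (V × I)) :=
  {r | r ∈ R ∧ ∃ i : ℤ, del (S.W i) r = r}

/-- their images -/
def Rm (R : Set (FreeGroup (V × I))) : Set (FreeGroup (S.Vm × I)) := mp S.q '' S.R0 R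

theorem delClosed (hR : DelClosed R) : DelClosed (S.Rm R) := by
  rintro _ ⟨r, ⟨hr, i, hi⟩, rfl⟩ A
  rw [del_mp]
  rcases hR r hr (S.q ⁻¹' A) with h | h
  · refine Or.inl ⟨_, ⟨h, i, ?_⟩, rfl⟩
    rw [del_del, Set.inter_comm, ← del_del, hi]
  · right
    rw [h, map_one]

theorem pj_short {i : ℤ} {r : FreeGroup (V × I)} (hr : r ∈ R) (hi : del (S.W i) r = r)
    (A : Set S.Vm) : pj (S.Rm R) A (mp S.q r) = 1 :=
  pj_rel ⟨r, ⟨hr, i, hi⟩, rfl⟩

variable (hinv : ∀ (j : ℤ), ∀ r ∈ R, mp (σ ^ j : Equiv.Perm V) r ∈ R)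

/-- one translation for all points of a window with given lifts -/
theorem one_shift {A : Set S.Vm} {l : S.Vm → V} {i0 : ℤ} (hl : ∀ c ∈ A, S.q (l c) = c)
    (hW : ∀ c ∈ A, l c ∈ S.W i0) (i : ℤ) :
    ∃ j : ℤ, ∀ v, v ∈ S.W i → S.q v ∈ A → (σ ^ (S.m * j)) v = l (S.q v) := by
  by_cases hex : ∃ v, v ∈ S.W i ∧ S.q v ∈ A ∧ ¬ S.fin v
  · obtain ⟨v, hv, hvA, hf⟩ := hex
    obtain ⟨j, hj⟩ := S.q_eq.1 (hl _ hvA).symm
    refine ⟨j, fun w hw hwA => ?_⟩
    obtain ⟨k, hk⟩ := S.q_eq.1 (hl _ hwA).symm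
    by_cases hf' : S.fin w
    · rw [← hk, S.fix hw.1 hf', S.fix hw.1 hf']
    · have h1 := S.ht v hf (S.m * j)
      have h2 := S.ht w hf' (S.m * k)
      rw [hj] at h1
      rw [hk] at h2
      have h3 : ¬ S.fin (l (S.q v)) := fun h => hf ((S.q_fin_iff (hl _ hvA)).1 h)
      have h4 : ¬ S.fin (l (S.q w)) := fun h => hf' ((S.q_fin_iff (hl _ hwA)).1 h)
      have h5 := (hW _ hvA).2.resolve_left h3
      have h6 := (hW _ hwA).2.resolve_left h4
      have h7 := hv.2.resolve_left hf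
      have h8 := hw.2.resolve_left hf'
      have h9 := S.hm
      have h10 := S.hD
      have h11 : k - j = 0 := by
        refine zero_of_lt (m := S.m) ?_
        rw [mul_sub, abs_lt]
        constructor <;> linarith
      have h12 : j = k := by omega
      rw [h12, hk]
  · push Not at hex
    refine ⟨0, fun w hw hwA => ?_⟩
    rw [mul_zero, zpow_zero, Equiv.Perm.one_apply]
    exact S.q_fin (hl _ hwA).symm hw.1 (hex w hw hwA)

open Classical in
include hinv in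
theorem phi_rel (hR : DelClosed R) {A : Set S.Vm} {l : S.Vm → V} {i0 : ℤ}
    (hl : ∀ c ∈ A, S.q (l c) = c) (hW : ∀ c ∈ A, l c ∈ S.W i0) :
    ∀ r ∈ S.Rm R, del A r = r → FreeGroup.lift (fun x : S.Vm × I =>
      if x.1 ∈ A then (PresentedGroup.of (l x.1, x.2) : Grp R (l '' A)) else 1) r = 1 := by
  rintro _ ⟨r, ⟨hr, i, hi⟩, rfl⟩ hA
  rw [del_mp] at hA
  rw [← hA]
  rcases hR r hr (S.q ⁻¹' A) with h | h
  · obtain ⟨r1, hr1⟩ : ∃ r1, r1 = del (S.q ⁻¹' A) r := ⟨_, rfl⟩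
    rw [← hr1] at h ⊢
    have h1 : del (S.W i ∩ S.q ⁻¹' A) r1 = r1 := by
      rw [hr1, del_del, Set.inter_assoc, Set.inter_self, Set.inter_comm, ← del_del, hi]
    obtain ⟨j, hj⟩ := S.one_shift hl hW i
    rw [← MonoidHom.comp_apply]
    rw [hom_ext (g := (pj R (l '' A)).comp (mp (σ ^ (S.m * j) : Equiv.Perm V)))
      (S.W i ∩ S.q ⁻¹' A) (fun x hx => ?_) r1 h1]
    · rw [MonoidHom.comp_apply, pj_rel (hinv _ _ h)]
    · rw [MonoidHom.comp_apply, MonoidHom.comp_apply, mp_of, mp_of, FreeGroup.lift_apply_of,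
        if_pos (show S.q x.1 ∈ A from hx.2), hj x.1 hx.1 hx.2]
      rfl
  · rw [h, map_one, map_one]

open Classical in
/-- from the group of a set of classes to the group of the set of lifts -/
noncomputable def phi (hR : DelClosed R) {A : Set S.Vm} {l : S.Vm → V} {i0 : ℤ}
    (hl : ∀ c ∈ A, S.q (l c) = c) (hW : ∀ c ∈ A, l c ∈ S.W i0) :
    Grp (S.Rm R) A →* Grp R (l '' A) :=
  toG (S.delClosed hR) (fun x : S.Vm × I =>
      if x.1 ∈ A then (PresentedGroup.of (l x.1, x.2) : Grp R (l '' A)) else 1)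
    (fun _ hx => if_neg hx) (S.phi_rel hinv hR hl hW)

theorem phi_of (hR : DelClosed R) {A : Set S.Vm} {l : S.Vm → V} {i0 : ℤ}
    (hl : ∀ c ∈ A, S.q (l c) = c) (hW : ∀ c ∈ A, l c ∈ S.W i0) {x : S.Vm × I} (hx : x.1 ∈ A) :
    S.phi hinv hR hl hW (PresentedGroup.of x) = PresentedGroup.of (l x.1, x.2) := by
  rw [phi, toG_of, if_pos hx]

open Classical in
/-- from the group of a set in a window to the group of a set of classes -/
noncomputable def psi (hR : DelClosed R) {L : Set V} {i0 : ℤ} (hL : L ⊆ S.W i0) (A : Set S.Vm) :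
    Grp R L →* Grp (S.Rm R) A :=
  toG hR (fun x : V × I =>
      if x.1 ∈ L then (PresentedGroup.of (S.q x.1, x.2) : Grp (S.Rm R) A) else 1)
    (fun _ hx => if_neg hx) (by
      intro r hr hrL
      rw [hom_ext (g := (pj (S.Rm R) A).comp (mp S.q)) L (fun x hx => ?_) r hrL]
      · rw [MonoidHom.comp_apply, S.pj_short hr (del_mono hL hrL)]
      · rw [FreeGroup.lift_apply_of, if_pos hx, MonoidHom.comp_apply, mp_of, pj_of])

theorem psi_of (hR : DelClosed R) {L : Set V} {i0 : ℤ} (hL : L ⊆ S.W i0) (A : Set S.Vm)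
    {x : V × I} (hx : x.1 ∈ L) :
    S.psi hR hL A (PresentedGroup.of x) = PresentedGroup.of (S.q x.1, x.2) := by
  rw [psi, toG_of, if_pos hx]

theorem phi_injective (hR : DelClosed R) {A : Set S.Vm} {l : S.Vm → V} {i0 : ℤ}
    (hl : ∀ c ∈ A, S.q (l c) = c) (hW : ∀ c ∈ A, l c ∈ S.W i0) :
    Function.Injective (S.phi hinv hR hl hW) := by
  have hL : l '' A ⊆ S.W i0 := by
    rintro _ ⟨c, hc, rfl⟩
    exact hW c hc
  have h1 : (S.psi hR hL A).comp (S.phi hinv hR hl hW) = MonoidHom.id _ := by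
    refine grp_ext fun x hx => ?_
    rw [MonoidHom.comp_apply, S.phi_of hinv hR hl hW hx, S.psi_of hR hL A ⟨x.1, hx, rfl⟩,
      MonoidHom.id_apply]
    show PresentedGroup.of (S.q (l x.1), x.2) = _
    rw [hl _ hx]
  exact Function.LeftInverse.injective (DFunLike.congr_fun h1)

end St

end Pool.Agent.U38.LR
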